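import Pool.Agent.Work.MP_b25393_ag.HX.Stmts

/-!
# MP_b25393_ag, block HX, item X10: the numbers
-/

set_option autoImplicit false

namespace Pool.Agent.Work.MP_b25393_ag.HX

open Pool.Agent.Work.MP_b25393_ag Pool.Agent.Work.MP_b25393_ag.HF

namespace IX10

/-- the list of the 84 directions -/
def LL : List (ℤ × ℤ) :=
  [(-5, 1), (-5, 2), (-5, 3), (-5, 4), (-4, -1), (-4, 0), (-4, 1), (-4, 2), (-4, 3), (-4, 4),
   (-4, 5), (-3, -2), (-3, -1), (-3, 0), (-3, 1), (-3, 2), (-3, 3), (-3, 4), (-3, 5), (-2, -3),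
   (-2, -2), (-2, -1), (-2, 0), (-2, 1), (-2, 2), (-2, 3), (-2, 4), (-2, 5), (-1, -4), (-1, -3),
   (-1, -2), (-1, -1), (-1, 0), (-1, 1), (-1, 2), (-1, 3), (-1, 4), (-1, 5), (0, -4), (0, -3),
   (0, -2), (0, -1), (0, 1), (0, 2), (0, 3), (0, 4), (1, -5), (1, -4), (1, -3), (1, -2), (1, -1),
   (1, 0), (1, 1), (1, 2), (1, 3), (1, 4), (2, -5), (2, -4), (2, -3), (2, -2), (2, -1), (2, 0),
   (2, 1), (2, 2), (2, 3), (3, -5), (3, -4), (3, -3), (3, -2), (3, -1), (3, 0), (3, 1), (3, 2),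
   (4, -5), (4, -4), (4, -3), (4, -2), (4, -1), (4, 0), (4, 1), (5, -4), (5, -3), (5, -2), (5, -1)]

theorem DD_eq : DD = LL.toFinset :=
  congrArg List.toFinset (by decide +kernel)

theorem LL_nodup : LL.Nodup := by decide +kernel

/-- the numbers `φ(m) L / m`, `L = 5354228880` -/
def tb (m : ℕ) : ℤ :=
  ([0, 5354228880, 2677114440, 3569485920, 2677114440, 4283383104, 1784742960, 4589339040,
    2677114440, 3569485920, 2141691552, 4867480800, 1784742960, 4942365120, 2294669520,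
    2855588736, 2677114440, 5039274240, 1784742960, 5072427360, 2141691552, 3059559360,
    2433740400, 5121436320, 1784742960] : List ℤ).getD m 0

theorem tb_eq : ∀ m < 25, 0 < m → tb m * (m : ℤ) = (Nat.totient m : ℤ) * 5354228880 := by
  decide +kernel

/-- `L` times `om` -/
def omi (u v : ℤ × ℤ) : ℤ :=
  if dt u v ≠ 0 ∧ Nat.gcd (Int.gcd u.1 u.2) (Int.gcd v.1 v.2) = 1 then tb (dt u v).natAbs else 0

theorem dt_lt : ∀ u ∈ LL, ∀ v ∈ LL, (dt u v).natAbs < 25 := by decide +kernel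

theorem om_eq (u v : ℤ × ℤ) (h : (dt u v).natAbs < 25) :
    om u v = (omi u v : ℚ) / 5354228880 := by
  unfold om omi
  split_ifs with h1
  · have hp : 0 < (dt u v).natAbs := Int.natAbs_pos.2 h1.1
    generalize (dt u v).natAbs = m at h hp ⊢
    have h2 := tb_eq m h hp
    have h3 : (tb m : ℚ) * (m : ℚ) = (Nat.totient m : ℚ) * 5354228880 := by exact_mod_cast h2
    have h4 : (m : ℚ) ≠ 0 := by exact_mod_cast hp.ne'
    rw [div_eq_div_iff h4 (by norm_num), h3]
  · simp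

theorem om_eq' (u v : ℤ × ℤ) (hu : u ∈ DD) (hv : v ∈ DD) :
    om u v = (omi u v : ℚ) / 5354228880 := by
  rw [DD_eq, List.mem_toFinset] at hu hv
  exact om_eq u v (dt_lt u hu v hv)

theorem rg : (do
    let a ← List.range 11
    pure (a : ℤ)) = [0, 1, 2, 3, 4, 5, 6, 7, 8, 9, 10] := by decide +kernel

theorem rg_mem (z : ℤ) (h1 : -5 ≤ z) (h2 : z ≤ 5) :
    z + 5 ∈ ([0, 1, 2, 3, 4, 5, 6, 7, 8, 9, 10] : List ℤ) := by
  simp only [List.mem_cons, List.not_mem_nil, or_false]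
  omega

theorem mem_DD (w : ℤ × ℤ) : w ∈ DD ↔ 0 < nm w ∧ nm w ≤ 21 := by
  obtain ⟨a, b⟩ := w
  unfold DD
  rw [rg]
  simp only [List.mem_toFinset, List.mem_filter, List.mem_flatMap, List.mem_map,
    decide_eq_true_eq]
  constructor
  · rintro ⟨-, h⟩
    exact h
  · intro h
    refine ⟨?_, h⟩
    have hn : a ^ 2 + a * b + b ^ 2 ≤ 21 := h.2
    have ha1 : -5 ≤ a := by nlinarith [sq_nonneg (a + 2 * b)]
    have ha2 : a ≤ 5 := by nlinarith [sq_nonneg (a + 2 * b)]
    have hb1 : -5 ≤ b := by nlinarith [sq_nonneg (2 * a + b)]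
    have hb2 : b ≤ 5 := by nlinarith [sq_nonneg (2 * a + b)]
    refine ⟨a + 5, rg_mem a ha1 ha2, b + 5, rg_mem b hb1 hb2, ?_⟩
    rw [add_sub_cancel_right, add_sub_cancel_right]

theorem sum2 (F : ℤ × ℤ → ℤ × ℤ → ℤ) :
    ∑ u ∈ DD, ∑ v ∈ DD, F u v = (LL.map fun u => (LL.map (F u)).sum).sum := by
  rw [DD_eq, List.sum_toFinset _ LL_nodup]
  simp only [List.sum_toFinset _ LL_nodup]

/-- the sum of the pairs -/
def FP (u v : ℤ × ℤ) : ℤ := omi u v * (4 * wd u * wd v)

/-- the sum of the triangles -/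
def FQ (u v : ℤ × ℤ) : ℤ :=
  if 0 < nm (u + v) ∧ nm (u + v) ≤ 21 then omi u v * hx (wd u) (wd v) (wd (u + v)) else 0

theorem P_val : (LL.map fun u => (LL.map (FP u)).sum).sum = 43326471856243968 := by
  decide +kernel

theorem Q_val : (LL.map fun u => (LL.map (FQ u)).sum).sum = 20370013782912576 := by
  decide +kernel

theorem PP_eq : PPq = 43326471856243968 / 5354228880 := by
  have h1 : PPq = ((∑ u ∈ DD, ∑ v ∈ DD, FP u v : ℤ) : ℚ) / 5354228880 := by
    unfold PPq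
    push_cast
    rw [Finset.sum_div]
    refine Finset.sum_congr rfl fun u hu => ?_
    rw [Finset.sum_div]
    refine Finset.sum_congr rfl fun v hv => ?_
    rw [om_eq' u v hu hv]
    unfold FP
    push_cast
    ring
  rw [h1, sum2, P_val]
  norm_num

theorem QQ_eq : QQq = 20370013782912576 / 5354228880 := by
  have h1 : QQq = ((∑ u ∈ DD, ∑ v ∈ DD, FQ u v : ℤ) : ℚ) / 5354228880 := by
    unfold QQq
    push_cast
    rw [Finset.sum_div]
    refine Finset.sum_congr rfl fun u hu => ?_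
    rw [Finset.sum_div]
    refine Finset.sum_congr rfl fun v hv => ?_
    unfold FQ
    by_cases h : u + v ∈ DD
    · rw [if_pos h, if_pos ((mem_DD _).1 h), om_eq' u v hu hv]
      push_cast
      ring
    · rw [if_neg h, if_neg (fun h' => h ((mem_DD _).2 h'))]
      simp
  rw [h1, sum2, Q_val]
  norm_num

end IX10

open IX10 in
theorem pr_X10 : St_X10 := by
  unfold St_X10
  rw [PP_eq, QQ_eq]
  norm_num

end Pool.Agent.Work.MP_b25393_ag.HX
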