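import Pool.Agent.Work.MP_b25393_ag.HX.Stmts

/-!
# MP_b25393_ag, block HX, item X2: the density of the pairs with a primitive cross product
-/

set_option autoImplicit false

open scoped Matrix

namespace Pool.Agent.Work.MP_b25393_ag.HX

open Pool.Agent.Work.MP_b25393_ag Pool.Agent.Work.MP_b25393_ag.HF

namespace IX2

theorem cross0 (u v : ℤ × ℤ) (c c' : ℤ) : (vc u c ⨯₃ vc v c') 0 = u.2 * c' - c * v.2 := rfl
theorem cross1 (u v : ℤ × ℤ) (c c' : ℤ) : (vc u c ⨯₃ vc v c') 1 = c * v.1 - u.1 * c' := rfl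
theorem cross2 (u v : ℤ × ℤ) (c c' : ℤ) : (vc u c ⨯₃ vc v c') 2 = dt u v := rfl

/-- primitive vectors by prime numbers -/
theorem prm_iff (z : Fin 3 → ℤ) :
    Prm z ↔ ∀ p : ℕ, p.Prime → ¬ ∀ i, (p : ℤ) ∣ z i := by
  constructor
  · intro h p hp hd
    have h1 := Int.isUnit_iff.1 (h p hd)
    have h2 := hp.two_le
    rcases h1 with h1 | h1 <;> omega
  · intro h d hd
    by_contra hu
    have h1 : d.natAbs ≠ 1 := fun h1 => hu (Int.isUnit_iff_natAbs_eq.2 h1)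
    obtain ⟨p, hp, hpd⟩ := Nat.exists_prime_and_dvd h1
    exact h p hp (fun i => (Int.natCast_dvd.2 hpd).trans (hd i))

theorem gcd_iff (a b : ℤ) :
    Int.gcd a b = 1 ↔ ∀ p : ℕ, p.Prime → (p : ℤ) ∣ b → ¬ (p : ℤ) ∣ a := by
  constructor
  · intro h p hp hb ha
    have h1 : p ∣ Int.gcd a b := Nat.dvd_gcd (Int.natCast_dvd.1 ha) (Int.natCast_dvd.1 hb)
    rw [h] at h1
    exact hp.one_lt.ne' (Nat.dvd_one.1 h1)
  · intro h
    by_contra hne
    obtain ⟨p, hp, hpd⟩ := Nat.exists_prime_and_dvd hne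
    have h1 : p ∣ a.natAbs := hpd.trans (Nat.gcd_dvd_left _ _)
    have h2 : p ∣ b.natAbs := hpd.trans (Nat.gcd_dvd_right _ _)
    exact h p hp (Int.natCast_dvd.2 h2) (Int.natCast_dvd.2 h1)

/-- the choice of `t` -/
theorem exists_t (u v : ℤ × ℤ) (hδ : dt u v ≠ 0)
    (hg : Nat.gcd (Int.gcd u.1 u.2) (Int.gcd v.1 v.2) = 1) :
    ∃ t : ℤ, ∀ p : ℕ, p.Prime → (p : ℤ) ∣ dt u v →
      ¬ ((p : ℤ) ∣ u.1 + t * v.1 ∧ (p : ℤ) ∣ u.2 + t * v.2) := by
  classical
  let T : Finset ℕ := (dt u v).natAbs.primeFactors.filter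
    (fun p : ℕ => ¬ ((p : ℤ) ∣ u.1 ∧ (p : ℤ) ∣ u.2))
  refine ⟨((∏ p ∈ T, p : ℕ) : ℤ), ?_⟩
  rintro p hp hpd ⟨h1, h2⟩
  have hp' := Nat.prime_iff_prime_int.1 hp
  by_cases hu : (p : ℤ) ∣ u.1 ∧ (p : ℤ) ∣ u.2
  · have hnt : ¬ (p : ℤ) ∣ ((∏ p ∈ T, p : ℕ) : ℤ) := by
      intro h
      rw [Int.natCast_dvd_natCast, hp.prime.dvd_finsetProd_iff] at h
      obtain ⟨q, hq, hpq⟩ := h
      have hq' := Finset.mem_filter.1 hq
      have hqp := Nat.prime_of_mem_primeFactors hq'.1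
      have he : p = q := (Nat.prime_dvd_prime_iff_eq hp hqp).1 hpq
      subst he
      exact hq'.2 hu
    have h3 : (p : ℤ) ∣ v.1 := by
      rcases hp'.dvd_or_dvd ((dvd_add_right hu.1).1 h1) with h | h
      · exact absurd h hnt
      · exact h
    have h4 : (p : ℤ) ∣ v.2 := by
      rcases hp'.dvd_or_dvd ((dvd_add_right hu.2).1 h2) with h | h
      · exact absurd h hnt
      · exact h
    have h5 : p ∣ Nat.gcd (Int.gcd u.1 u.2) (Int.gcd v.1 v.2) :=
      Nat.dvd_gcd (Nat.dvd_gcd (Int.natCast_dvd.1 hu.1) (Int.natCast_dvd.1 hu.2))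
        (Nat.dvd_gcd (Int.natCast_dvd.1 h3) (Int.natCast_dvd.1 h4))
    rw [hg] at h5
    exact hp.one_lt.ne' (Nat.dvd_one.1 h5)
  · have hpT : p ∈ T := Finset.mem_filter.2 ⟨Nat.mem_primeFactors.2
      ⟨hp, Int.natCast_dvd.1 hpd, by rwa [Int.natAbs_ne_zero]⟩, hu⟩
    have ht : (p : ℤ) ∣ ((∏ p ∈ T, p : ℕ) : ℤ) :=
      Int.natCast_dvd_natCast.2 (Finset.dvd_prod_of_mem (fun q : ℕ => q) hpT)
    exact hu ⟨(dvd_add_left (ht.mul_right _)).1 h1, (dvd_add_left (ht.mul_right _)).1 h2⟩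

/-- the condition is a condition on one linear form -/
theorem forms (u v : ℤ × ℤ) (hδ : dt u v ≠ 0)
    (hg : Nat.gcd (Int.gcd u.1 u.2) (Int.gcd v.1 v.2) = 1) :
    ∃ α β t : ℤ, β - t * α = 1 ∧ ∀ c c' : ℤ, Prm (vc u c ⨯₃ vc v c') ↔
      Int.gcd (α * c + β * c') (dt u v) = 1 := by
  obtain ⟨t, ht⟩ := exists_t u v hδ hg
  -- a Bezout relation
  have hcop : Int.gcd (u.1 + t * v.1) (u.2 + t * v.2) = 1 := by
    rw [gcd_iff]
    intro p hp h2 h1
    refine ht p hp ?_ ⟨h1, h2⟩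
    have e : dt u v = (u.1 + t * v.1) * v.2 - (u.2 + t * v.2) * v.1 := by
      unfold dt
      ring
    rw [e]
    exact dvd_sub (h1.mul_right _) (h2.mul_right _)
  obtain ⟨a, b, hab⟩ := Int.isCoprime_iff_gcd_eq_one.2 hcop
  obtain ⟨k, hk⟩ : ∃ k : ℤ, k = v.1 * a + v.2 * b := ⟨_, rfl⟩
  -- `v = k u' + δ w`, `w = (-b, a)`
  have hv1 : v.1 = k * (u.1 + t * v.1) - dt u v * b := by
    rw [hk]
    unfold dt
    linear_combination (-v.1) * hab
  have hv2 : v.2 = k * (u.2 + t * v.2) + dt u v * a := by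
    rw [hk]
    unfold dt
    linear_combination (-v.2) * hab
  refine ⟨-k, 1 - k * t, t, by ring, fun c c' => ?_⟩
  have e0 : (vc u c ⨯₃ vc v c') 0 = (u.2 + t * v.2) * (-k * c + (1 - k * t) * c') -
      dt u v * (a * (c + t * c')) := by
    rw [cross0]
    linear_combination (-(c + t * c')) * hv2
  have e1 : (vc u c ⨯₃ vc v c') 1 = -((u.1 + t * v.1) * (-k * c + (1 - k * t) * c')) -
      dt u v * (b * (c + t * c')) := by
    rw [cross1]
    linear_combination (c + t * c') * hv1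
  rw [prm_iff, gcd_iff]
  constructor
  · intro h p hp hd hf
    apply h p hp
    intro i
    fin_cases i
    · change (p : ℤ) ∣ (vc u c ⨯₃ vc v c') 0
      rw [e0]
      exact dvd_sub (hf.mul_left _) (hd.mul_right _)
    · change (p : ℤ) ∣ (vc u c ⨯₃ vc v c') 1
      rw [e1]
      exact dvd_sub (dvd_neg.2 (hf.mul_left _)) (hd.mul_right _)
    · exact hd
  · intro h p hp hall
    have hd : (p : ℤ) ∣ dt u v := hall 2
    have hp' := Nat.prime_iff_prime_int.1 hp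
    apply h p hp hd
    by_contra hf
    apply ht p hp hd
    constructor
    · have h1 := hall 1
      rw [e1] at h1
      have h2 := (dvd_sub_left (hd.mul_right _)).1 h1
      rw [dvd_neg] at h2
      rcases hp'.dvd_or_dvd h2 with h3 | h3
      · exact h3
      · exact absurd h3 hf
    · have h1 := hall 0
      rw [e0] at h1
      have h2 := (dvd_sub_left (hd.mul_right _)).1 h1
      rcases hp'.dvd_or_dvd h2 with h3 | h3
      · exact h3
      · exact absurd h3 hf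

/-- the pairs of residues -/
def gg (m : ℕ) (α t : ZMod m) (x : ZMod m × (ZMod m)ˣ) : ZMod m × ZMod m :=
  (x.1 - t * ((x.2 : ZMod m) - α * x.1), (x.2 : ZMod m) - α * x.1)

theorem gg_inj (m : ℕ) (α t : ZMod m) : Function.Injective (gg m α t) := by
  intro x y h
  have h1 := congrArg Prod.fst h
  have h2 := congrArg Prod.snd h
  simp only [gg] at h1 h2
  have h3 : x.1 = y.1 := by
    rw [h2] at h1
    exact sub_left_injective h1
  rw [h3] at h2
  exact Prod.ext h3 (Units.ext (sub_left_injective h2))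

theorem gg_range (m : ℕ) (α β t : ZMod m) (h : β - t * α = 1) :
    Set.range (gg m α t) = {x : ZMod m × ZMod m | IsUnit (α * x.1 + β * x.2)} := by
  ext x
  constructor
  · rintro ⟨y, rfl⟩
    have e : α * (gg m α t y).1 + β * (gg m α t y).2 = (y.2 : ZMod m) := by
      simp only [gg]
      linear_combination ((y.2 : ZMod m) - α * y.1) * h
    change IsUnit (α * (gg m α t y).1 + β * (gg m α t y).2)
    rw [e]
    exact y.2.isUnit
  · rintro ⟨w, hw⟩
    refine ⟨(x.1 + t * x.2, w), ?_⟩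
    have e : (w : ZMod m) - α * (x.1 + t * x.2) = x.2 := by
      rw [hw]
      linear_combination x.2 * h
    have e' : gg m α t (x.1 + t * x.2, w) =
        ((x.1 + t * x.2) - t * ((w : ZMod m) - α * (x.1 + t * x.2)),
          (w : ZMod m) - α * (x.1 + t * x.2)) := rfl
    rw [e', e, add_sub_cancel_right]

theorem count (m : ℕ) (hm : 0 < m) (α β t : ℤ) (h : β - t * α = 1) :
    {z : Fin 2 → ℤ | (∀ i, 0 ≤ z i ∧ z i < (m : ℤ)) ∧
      Int.gcd (α * z 0 + β * z 1) (m : ℤ) = 1}.ncard = m * m.totient := by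
  have hne : NeZero m := ⟨hm.ne'⟩
  let κ : (Fin 2 → ℤ) → ZMod m × ZMod m := fun z => ((z 0 : ZMod m), (z 1 : ZMod m))
  have hlt : ∀ a b : ℤ, 0 ≤ a → a < m → 0 ≤ b → b < m → (a : ZMod m) = (b : ZMod m) → a = b := by
    intro a b ha ha' hb hb' hab
    have h1 := (ZMod.intCast_eq_intCast_iff a b m).1 hab
    unfold Int.ModEq at h1
    rw [Int.emod_eq_of_lt ha ha', Int.emod_eq_of_lt hb hb'] at h1
    exact h1
  have hunit : ∀ z : Fin 2 → ℤ, IsUnit ((α : ZMod m) * (κ z).1 + (β : ZMod m) * (κ z).2) ↔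
      Int.gcd (α * z 0 + β * z 1) (m : ℤ) = 1 := by
    intro z
    have e : (α : ZMod m) * (κ z).1 + (β : ZMod m) * (κ z).2 =
        ((α * z 0 + β * z 1 : ℤ) : ZMod m) := by
      simp only [κ]
      push_cast
      ring
    rw [e, ZMod.coe_int_isUnit_iff_isCoprime, isCoprime_comm, Int.isCoprime_iff_gcd_eq_one]
  have hinj : Set.InjOn κ {z : Fin 2 → ℤ | (∀ i, 0 ≤ z i ∧ z i < (m : ℤ)) ∧
      Int.gcd (α * z 0 + β * z 1) (m : ℤ) = 1} := by
    rintro z ⟨hz, -⟩ z' ⟨hz', -⟩ he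
    have h0 := congrArg Prod.fst he
    have h1 := congrArg Prod.snd he
    funext i
    fin_cases i
    · exact hlt _ _ (hz 0).1 (hz 0).2 (hz' 0).1 (hz' 0).2 h0
    · exact hlt _ _ (hz 1).1 (hz 1).2 (hz' 1).1 (hz' 1).2 h1
  have himg : κ '' {z : Fin 2 → ℤ | (∀ i, 0 ≤ z i ∧ z i < (m : ℤ)) ∧
      Int.gcd (α * z 0 + β * z 1) (m : ℤ) = 1} = Set.range (gg m (α : ZMod m) (t : ZMod m)) := by
    have hcast : (β : ZMod m) - (t : ZMod m) * (α : ZMod m) = 1 := by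
      have h1 := congrArg (Int.cast : ℤ → ZMod m) h
      push_cast at h1
      exact h1
    rw [gg_range m (α : ZMod m) (β : ZMod m) (t : ZMod m) hcast]
    ext x
    constructor
    · rintro ⟨z, ⟨-, hz⟩, rfl⟩
      exact (hunit z).2 hz
    · intro hx
      have hκ : κ ![(x.1.val : ℤ), (x.2.val : ℤ)] = x := by
        refine Prod.ext ?_ ?_
        · change (((x.1.val : ℤ)) : ZMod m) = x.1
          rw [Int.cast_natCast, ZMod.natCast_zmod_val]
        · change (((x.2.val : ℤ)) : ZMod m) = x.2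
          rw [Int.cast_natCast, ZMod.natCast_zmod_val]
      refine ⟨![(x.1.val : ℤ), (x.2.val : ℤ)], ⟨?_, ?_⟩, hκ⟩
      · intro i
        fin_cases i
        · exact ⟨Int.natCast_nonneg _, Int.ofNat_lt.2 (ZMod.val_lt x.1)⟩
        · exact ⟨Int.natCast_nonneg _, Int.ofNat_lt.2 (ZMod.val_lt x.2)⟩
      · rw [← hunit, hκ]
        exact hx
  rw [← hinj.ncard_image, himg, ← Nat.card_coe_set_eq,
    Nat.card_range_of_injective (gg_inj m _ _), Nat.card_prod, Nat.card_zmod,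
    Nat.card_eq_fintype_card, ZMod.card_units_eq_totient]

end IX2

theorem pr_X2 : St_X2 := by
  intro u v hδ
  have hm : 0 < (dt u v).natAbs := Int.natAbs_pos.2 hδ
  have habs : |dt u v| = ((dt u v).natAbs : ℤ) := Int.abs_eq_natAbs _
  by_cases hg : Nat.gcd (Int.gcd u.1 u.2) (Int.gcd v.1 v.2) = 1
  · obtain ⟨α, β, t, h, hP⟩ := IX2.forms u v hδ hg
    have hset : {z : Fin 2 → ℤ | (∀ i, 0 ≤ z i ∧ z i < |dt u v|) ∧
        Prm (vc u (z 0) ⨯₃ vc v (z 1))} =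
        {z : Fin 2 → ℤ | (∀ i, 0 ≤ z i ∧ z i < ((dt u v).natAbs : ℤ)) ∧
          Int.gcd (α * z 0 + β * z 1) ((dt u v).natAbs : ℤ) = 1} := by
      ext z
      have e : Int.gcd (α * z 0 + β * z 1) ((dt u v).natAbs : ℤ) =
          Int.gcd (α * z 0 + β * z 1) (dt u v) := by
        unfold Int.gcd
        rw [Int.natAbs_natCast]
      change ((∀ i, 0 ≤ z i ∧ z i < |dt u v|) ∧ Prm (vc u (z 0) ⨯₃ vc v (z 1))) ↔
        ((∀ i, 0 ≤ z i ∧ z i < ((dt u v).natAbs : ℤ)) ∧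
          Int.gcd (α * z 0 + β * z 1) ((dt u v).natAbs : ℤ) = 1)
      rw [habs, hP, e]
    rw [hset, IX2.count _ hm α β t h]
    have hsq : ((dt u v : ℤ) : ℝ) ^ 2 = (((dt u v).natAbs : ℕ) : ℝ) ^ 2 := by
      rw [Nat.cast_natAbs, Int.cast_abs, sq_abs]
    have hom : om u v = (Nat.totient (dt u v).natAbs : ℚ) / ((dt u v).natAbs : ℚ) :=
      if_pos ⟨hδ, hg⟩
    have hm' : (((dt u v).natAbs : ℕ) : ℝ) ≠ 0 := by exact_mod_cast hm.ne'
    rw [hsq, hom]
    push_cast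
    field_simp
  · have hom : om u v = 0 := if_neg (fun h => hg h.2)
    have hempty : {z : Fin 2 → ℤ | (∀ i, 0 ≤ z i ∧ z i < |dt u v|) ∧
        Prm (vc u (z 0) ⨯₃ vc v (z 1))} = ∅ := by
      rw [Set.eq_empty_iff_forall_notMem]
      rintro z ⟨-, hz⟩
      obtain ⟨p, hp, hpd⟩ := Nat.exists_prime_and_dvd hg
      have h1 := hpd.trans (Nat.gcd_dvd_left _ _)
      have h2 := hpd.trans (Nat.gcd_dvd_right _ _)
      have hu1 : (p : ℤ) ∣ u.1 := Int.natCast_dvd.2 (h1.trans (Nat.gcd_dvd_left _ _))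
      have hu2 : (p : ℤ) ∣ u.2 := Int.natCast_dvd.2 (h1.trans (Nat.gcd_dvd_right _ _))
      have hv1 : (p : ℤ) ∣ v.1 := Int.natCast_dvd.2 (h2.trans (Nat.gcd_dvd_left _ _))
      have hv2 : (p : ℤ) ∣ v.2 := Int.natCast_dvd.2 (h2.trans (Nat.gcd_dvd_right _ _))
      refine (IX2.prm_iff _).1 hz p hp (fun i => ?_)
      fin_cases i
      · exact dvd_sub (hu2.mul_right _) (hv2.mul_left _)
      · exact dvd_sub (hv1.mul_left _) (hu1.mul_right _)
      · exact dvd_sub (hu1.mul_right _) (hu2.mul_right _)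
    rw [hempty, hom]
    simp

end Pool.Agent.Work.MP_b25393_ag.HX
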