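import Pool.Agent.Work.MP_b25393_ag.HX.Stmts

/-!
# MP_b25393_ag, block HX, item X3: the count for one pair of directions
-/

set_option autoImplicit false

open scoped LinearAlgebra.Projectivization Pointwise Matrix
open MeasureTheory Filter Topology Matrix

namespace Pool.Agent.Work.MP_b25393_ag.HX

open Pool.Agent.Work.MP_b25393_ag Pool.Agent.Work.MP_b25393_ag.HF

namespace IX3

/-- the integral points of a bounded set are finite -/
theorem pts_finite {D : Set (Fin 2 → ℝ)} (hD : IsCompact D) (R : ℝ) :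
    ({z : Fin 2 → ℤ | toR z ∈ R • D}).Finite := by
  have hb : Bornology.IsBounded (R • D) := (hD.smul R).isBounded
  obtain ⟨M, hM⟩ := hb.exists_norm_le
  refine (Set.finite_Icc ((fun _ => -⌈M⌉) : Fin 2 → ℤ) (fun _ => ⌈M⌉)).subset ?_
  intro z hz
  have h1 : ‖toR z‖ ≤ M := hM _ hz
  have h2 : ∀ i, |(z i : ℝ)| ≤ M := fun i => le_trans (norm_le_pi_norm (toR z) i) h1
  have h5 : ∀ a : ℤ, |(a : ℝ)| ≤ M → -⌈M⌉ ≤ a ∧ a ≤ ⌈M⌉ := by
    intro a ha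
    have hc : |(a : ℝ)| ≤ (⌈M⌉ : ℤ) := le_trans ha (Int.le_ceil M)
    have hc' : |a| ≤ ⌈M⌉ := by exact_mod_cast hc
    exact abs_le.1 hc'
  exact ⟨fun i => (h5 _ (h2 i)).1, fun i => (h5 _ (h2 i)).2⟩

/-- the residues -/
theorem box_finite (N : ℕ) (W : Set (Fin 2 → ℤ)) :
    ({z : Fin 2 → ℤ | (∀ i, 0 ≤ z i ∧ z i < (N : ℤ)) ∧ z ∈ W}).Finite := by
  refine (Set.finite_Icc ((fun _ => 0) : Fin 2 → ℤ) (fun _ => (N : ℤ))).subset ?_
  rintro z ⟨h1, -⟩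
  exact ⟨fun i => (h1 i).1, fun i => (h1 i).2.le⟩

/-- reduction mod `N` -/
def red (N : ℕ) (z : Fin 2 → ℤ) : Fin 2 → ℤ := fun i => z i % (N : ℤ)

theorem red_eq_iff {N : ℕ} {z r : Fin 2 → ℤ} (hr : ∀ i, 0 ≤ r i ∧ r i < (N : ℤ)) :
    red N z = r ↔ ∀ i, (N : ℤ) ∣ z i - r i := by
  have key : ∀ a b : ℤ, 0 ≤ b → b < (N : ℤ) → (a % (N : ℤ) = b ↔ (N : ℤ) ∣ a - b) := by
    intro a b hb0 hb1
    constructor
    · intro h
      rw [← h]
      exact Int.dvd_self_sub_emod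
    · intro h
      have h1 : b % (N : ℤ) = a % (N : ℤ) := Int.emod_eq_emod_iff_emod_sub_eq_zero.2 (by
        have : (N : ℤ) ∣ b - a := by
          have := (dvd_neg).2 h
          rwa [neg_sub] at this
        exact Int.emod_eq_zero_of_dvd this)
      rw [← h1]
      exact Int.emod_eq_of_lt hb0 hb1
  constructor
  · intro h
    subst h
    exact fun i => Int.dvd_self_sub_emod
  · intro h1
    exact funext fun i => (key _ _ (hr i).1 (hr i).2).2 (h1 i)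

theorem red_mem {N : ℕ} (hN : 1 ≤ N) (z : Fin 2 → ℤ) :
    ∀ i, 0 ≤ red N z i ∧ red N z i < (N : ℤ) := by
  have h0 : (0 : ℤ) < N := by exact_mod_cast hN
  exact fun i => ⟨Int.emod_nonneg _ h0.ne', Int.emod_lt_of_pos _ h0⟩

open Classical in
/-- the count is a finite sum -/
theorem count {D : Set (Fin 2 → ℝ)} (hD : IsCompact D) {N : ℕ} (hN : 1 ≤ N)
    (W : Set (Fin 2 → ℤ))
    (hW : ∀ z z' : Fin 2 → ℤ, (∀ i, (N : ℤ) ∣ z i - z' i) → (z ∈ W ↔ z' ∈ W)) (R : ℝ) :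
    ({z : Fin 2 → ℤ | toR z ∈ R • D ∧ z ∈ W}).ncard =
      ∑ r ∈ (box_finite N W).toFinset,
        ({z : Fin 2 → ℤ | toR z ∈ R • D ∧ ∀ i, (N : ℤ) ∣ z i - r i}).ncard := by
  have hf := pts_finite hD R
  have e1 : ({z : Fin 2 → ℤ | toR z ∈ R • D ∧ z ∈ W}) =
      ((hf.toFinset.filter (fun z => z ∈ W) : Finset _) : Set (Fin 2 → ℤ)) := by
    ext z
    simp
  have e2 : ∀ r ∈ (box_finite N W).toFinset,
      ({z : Fin 2 → ℤ | toR z ∈ R • D ∧ ∀ i, (N : ℤ) ∣ z i - r i}) =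
      (((hf.toFinset.filter (fun z => z ∈ W)).filter (fun z => red N z = r) : Finset _) :
        Set (Fin 2 → ℤ)) := by
    intro r hr
    have hr' : (∀ i, 0 ≤ r i ∧ r i < (N : ℤ)) ∧ r ∈ W := (box_finite N W).mem_toFinset.1 hr
    ext z
    simp only [Set.mem_ofPred_eq, Finset.coe_filter, Finset.mem_filter, Set.Finite.mem_toFinset,
      red_eq_iff hr'.1]
    constructor
    · rintro ⟨h1, h2⟩
      exact ⟨⟨h1, (hW z r h2).2 hr'.2⟩, h2⟩
    · rintro ⟨⟨h1, -⟩, h2⟩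
      exact ⟨h1, h2⟩
  rw [e1, Set.ncard_coe_finset, Finset.card_eq_sum_card_fiberwise (f := red N)
    (t := (box_finite N W).toFinset) ?_]
  · refine Finset.sum_congr rfl fun r hr => ?_
    rw [e2 r hr, Set.ncard_coe_finset]
  · intro z hz
    have hz' : z ∈ W := (Finset.mem_filter.1 (Finset.mem_coe.1 hz)).2
    have hm := red_mem hN z
    have hc := (red_eq_iff hm (z := z)).1 rfl
    exact Finset.mem_coe.2 ((Set.Finite.mem_toFinset _).2 ⟨hm, (hW z (red N z) hc).1 hz'⟩)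

theorem cr0 (u v : ℤ × ℤ) (c c' : ℤ) : (vc u c ⨯₃ vc v c') 0 = u.2 * c' - c * v.2 := by
  simp [vc, cross_apply]

theorem cr1 (u v : ℤ × ℤ) (c c' : ℤ) : (vc u c ⨯₃ vc v c') 1 = c * v.1 - u.1 * c' := by
  simp [vc, cross_apply]

theorem cr2 (u v : ℤ × ℤ) (c c' : ℤ) : (vc u c ⨯₃ vc v c') 2 = dt u v := by
  simp [vc, cross_apply, dt]

/-- a common divisor for one pair of residues is one for the other -/
theorem step (u v : ℤ × ℤ) (z z' : Fin 2 → ℤ) (h : ∀ i, |dt u v| ∣ z i - z' i) (d : ℤ)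
    (hd : ∀ i, d ∣ (vc u (z 0) ⨯₃ vc v (z 1)) i) : ∀ i, d ∣ (vc u (z' 0) ⨯₃ vc v (z' 1)) i := by
  have h2 : d ∣ dt u v := by
    have := hd 2
    rwa [cr2] at this
  have h3 : d ∣ |dt u v| := (dvd_abs _ _).2 h2
  have k0 : d ∣ z 0 - z' 0 := h3.trans (h 0)
  have k1 : d ∣ z 1 - z' 1 := h3.trans (h 1)
  intro i
  fin_cases i
  · change d ∣ (vc u (z' 0) ⨯₃ vc v (z' 1)) 0
    have h0 := hd 0
    rw [cr0] at h0 ⊢
    have e : u.2 * z' 1 - z' 0 * v.2 =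
        (u.2 * z 1 - z 0 * v.2) - (u.2 * (z 1 - z' 1) - (z 0 - z' 0) * v.2) := by ring
    rw [e]
    exact dvd_sub h0 (dvd_sub (Dvd.dvd.mul_left k1 _) (Dvd.dvd.mul_right k0 _))
  · change d ∣ (vc u (z' 0) ⨯₃ vc v (z' 1)) 1
    have h0 := hd 1
    rw [cr1] at h0 ⊢
    have e : z' 0 * v.1 - u.1 * z' 1 =
        (z 0 * v.1 - u.1 * z 1) - ((z 0 - z' 0) * v.1 - u.1 * (z 1 - z' 1)) := by ring
    rw [e]
    exact dvd_sub h0 (dvd_sub (Dvd.dvd.mul_right k0 _) (Dvd.dvd.mul_left k1 _))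
  · change d ∣ (vc u (z' 0) ⨯₃ vc v (z' 1)) 2
    rw [cr2]
    exact h2

theorem prm_iff (u v : ℤ × ℤ) (z z' : Fin 2 → ℤ) (h : ∀ i, |dt u v| ∣ z i - z' i) :
    Prm (vc u (z 0) ⨯₃ vc v (z 1)) ↔ Prm (vc u (z' 0) ⨯₃ vc v (z' 1)) := by
  have h' : ∀ i, |dt u v| ∣ z' i - z i := fun i => by
    have := (dvd_neg).2 (h i)
    rwa [neg_sub] at this
  constructor
  · intro hp d hd
    exact hp d (step u v z' z h' d hd)
  · intro hp d hd
    exact hp d (step u v z z' h d hd)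

end IX3

open IX3 in
/-- Item X3. -/
theorem pr_X3 (hX2 : St_X2) : St_X3 := by
  intro u v huv T hT
  obtain ⟨N, hNdef⟩ : ∃ N : ℕ, N = (dt u v).natAbs := ⟨_, rfl⟩
  have hNabs : (N : ℤ) = |dt u v| := by rw [hNdef]; exact Int.natCast_natAbs _
  have hN : 1 ≤ N := by
    rw [hNdef]
    exact Nat.one_le_iff_ne_zero.2 (Int.natAbs_ne_zero.2 huv)
  obtain ⟨W, hWdef⟩ : ∃ W : Set (Fin 2 → ℤ), W = {z | Prm (vc u (z 0) ⨯₃ vc v (z 1))} := ⟨_, rfl⟩
  have hW : ∀ z z' : Fin 2 → ℤ, (∀ i, (N : ℤ) ∣ z i - z' i) → (z ∈ W ↔ z' ∈ W) := by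
    intro z z' h
    rw [hWdef]
    rw [hNabs] at h
    exact prm_iff u v z z' h
  have hlim : Tendsto (fun R : ℝ => ∑ r ∈ (box_finite N W).toFinset,
      ((({z : Fin 2 → ℤ | toR z ∈ R • T ∧ ∀ i, (N : ℤ) ∣ z i - r i}).ncard : ℕ) : ℝ) /
        R ^ Fintype.card (Fin 2))
      atTop (𝓝 (∑ _r ∈ (box_finite N W).toFinset,
        (volume T).toReal / (N : ℝ) ^ Fintype.card (Fin 2))) :=
    tendsto_finsetSum _ fun r _ => all_C3 (Fin 2) T hT N hN r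
  rw [Fintype.card_fin] at hlim
  have hN0 : (N : ℝ) ^ 2 ≠ 0 := pow_ne_zero _ (by
    have : (1 : ℝ) ≤ N := by exact_mod_cast hN
    linarith)
  have hsq : ((dt u v : ℤ) : ℝ) ^ 2 = (N : ℝ) ^ 2 := by
    have : ((N : ℤ) : ℝ) = |((dt u v : ℤ) : ℝ)| := by
      rw [hNabs]
      exact Int.cast_abs
    rw [← sq_abs, ← this, Int.cast_natCast]
  have e : ∑ _r ∈ (box_finite N W).toFinset, (volume T).toReal / (N : ℝ) ^ 2 =
      (om u v : ℝ) * (volume T).toReal := by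
    rw [Finset.sum_const, nsmul_eq_mul, ← Set.ncard_eq_toFinset_card _ (box_finite N W)]
    have h2 := hX2 u v huv
    rw [hsq] at h2
    have hset : ({z : Fin 2 → ℤ | (∀ i, 0 ≤ z i ∧ z i < (N : ℤ)) ∧ z ∈ W}) =
        {z : Fin 2 → ℤ | (∀ i, 0 ≤ z i ∧ z i < |dt u v|) ∧
          Prm (vc u (z 0) ⨯₃ vc v (z 1))} := by
      rw [hWdef, hNabs]
      rfl
    rw [hset, h2]
    field_simp
  rw [← e]
  refine hlim.congr fun R => ?_
  rw [← Finset.sum_div, ← Nat.cast_sum, ← count hT.comp hN W hW R, hWdef]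
  rfl

end Pool.Agent.Work.MP_b25393_ag.HX
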