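import Pool.Agent.Work.MP_b25393_ag.HX.Stmts

/-!
# MP_b25393_ag, block HX: item X4, the area of the hexagon (helper4)
-/

set_option autoImplicit false

open scoped LinearAlgebra.Projectivization Pointwise Matrix
open MeasureTheory Filter Topology Matrix

namespace Pool.Agent.Work.MP_b25393_ag.HX

open Pool.Agent.Work.MP_b25393_ag Pool.Agent.Work.MP_b25393_ag.HF

namespace IX4

/-- the positive part -/
noncomputable def r (t : ℝ) : ℝ := max 0 t

lemma r_nonneg (t : ℝ) : 0 ≤ r t := le_max_left _ _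

lemma r_of_nonneg {t : ℝ} (h : 0 ≤ t) : r t = t := max_eq_right h

lemma r_of_nonpos {t : ℝ} (h : t ≤ 0) : r t = 0 := max_eq_left h

lemma r_cont : Continuous r := continuous_const.max continuous_id

lemma r_deriv (t : ℝ) : HasDerivAt (fun s => r s ^ 2 / 2) (r t) t := by
  rcases lt_trichotomy t 0 with h | h | h
  · have e : (fun s => r s ^ 2 / 2) =ᶠ[𝓝 t] fun _ => (0 : ℝ) := by
      filter_upwards [Iio_mem_nhds h] with s hs
      rw [r_of_nonpos (le_of_lt hs)]; norm_num
    rw [r_of_nonpos h.le]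
    exact (hasDerivAt_const t (0 : ℝ)).congr_of_eventuallyEq e
  · subst h
    rw [r_of_nonpos le_rfl, hasDerivAt_iff_isLittleO_nhds_zero]
    simp only [zero_add, smul_zero, sub_zero]
    rw [r_of_nonpos (le_refl (0 : ℝ))]
    have h1 : (fun h : ℝ => h ^ 2) =o[𝓝 0] fun h : ℝ => h := by
      simpa using (Asymptotics.isLittleO_pow_id (𝕜 := ℝ) (n := 2) (by norm_num))
    refine Asymptotics.IsBigO.trans_isLittleO ?_ h1
    refine Asymptotics.IsBigO.of_bound 1 (Filter.Eventually.of_forall fun s => ?_)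
    rw [one_mul, Real.norm_eq_abs, Real.norm_eq_abs, abs_of_nonneg (sq_nonneg s)]
    have h0 : r s ^ 2 ≤ s ^ 2 := by
      rcases le_total 0 s with h | h
      · rw [r_of_nonneg h]
      · rw [r_of_nonpos h]; nlinarith [sq_nonneg s]
    rw [abs_of_nonneg (by have := sq_nonneg (r s); linarith)]
    nlinarith [sq_nonneg s]
  · have e : (fun s => r s ^ 2 / 2) =ᶠ[𝓝 t] fun s => s ^ 2 / 2 := by
      filter_upwards [Ioi_mem_nhds h] with s hs
      rw [r_of_nonneg (le_of_lt hs)]
    rw [r_of_nonneg h.le]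
    have h2 : HasDerivAt (fun s : ℝ => s ^ 2 / 2) t t := by
      have := ((hasDerivAt_id t).pow 2).div_const 2
      simpa using this
    exact h2.congr_of_eventuallyEq e

lemma int_r (k a : ℝ) : ∫ x in (-a)..a, r (x + k) = r (a + k) ^ 2 / 2 - r (-a + k) ^ 2 / 2 := by
  refine intervalIntegral.integral_eq_sub_of_hasDerivAt (f := fun x => r (x + k) ^ 2 / 2) ?_ ?_
  · intro x _
    have := (r_deriv (x + k)).comp_add_const x k
    exact this
  · exact (r_cont.comp (continuous_id.add continuous_const)).intervalIntegrable _ _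

/-- the length of the section -/
noncomputable def L (b c x : ℝ) : ℝ :=
  r (x + (b + c)) - r (x + (b - c)) - r (x + (c - b)) + r (x + (-b - c))

lemma L_eq (b c x : ℝ) (hb : 0 < b) (hc : 0 < c) :
    L b c x = max 0 (min b (c - x) - max (-b) (-c - x)) := by
  unfold L
  rcases le_total 0 (x + (b + c)) with h1 | h1 <;> rcases le_total 0 (x + (b - c)) with h2 | h2 <;>
  rcases le_total 0 (x + (c - b)) with h3 | h3 <;> rcases le_total 0 (x + (-b - c)) with h4 | h4 <;>
  rcases le_total b (c - x) with h5 | h5 <;> rcases le_total (-b) (-c - x) with h6 | h6 <;>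
  first
  | (exfalso; linarith)
  | (simp only [r_of_nonneg, r_of_nonpos, h1, h2, h3, h4]
     first
     | rw [min_eq_left h5] | rw [min_eq_right h5]
     first
     | rw [max_eq_left h6] | rw [max_eq_right h6]
     first
     | (rw [max_eq_left (by linarith)]; linarith)
     | (rw [max_eq_right (by linarith)]; linarith))

lemma L_nonneg (b c x : ℝ) (hb : 0 < b) (hc : 0 < c) : 0 ≤ L b c x := by
  rw [L_eq b c x hb hc]; exact le_max_left _ _

lemma L_cont (b c : ℝ) : Continuous (L b c) := by
  unfold L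
  exact (((r_cont.comp (continuous_id.add continuous_const)).sub
    (r_cont.comp (continuous_id.add continuous_const))).sub
    (r_cont.comp (continuous_id.add continuous_const))).add
    (r_cont.comp (continuous_id.add continuous_const))

/-- the area in terms of squares of positive parts -/
lemma int_L (a b c : ℝ) : ∫ x in (-a)..a, L b c x =
    (r (a + (b + c)) ^ 2 - r (-a + (b + c)) ^ 2 - r (a + (b - c)) ^ 2 + r (-a + (b - c)) ^ 2
      - r (a + (c - b)) ^ 2 + r (-a + (c - b)) ^ 2 + r (a + (-b - c)) ^ 2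
      - r (-a + (-b - c)) ^ 2) / 2 := by
  have hi : ∀ k : ℝ, IntervalIntegrable (fun x => r (x + k)) volume (-a) a := fun k =>
    (r_cont.comp (continuous_id.add continuous_const)).intervalIntegrable _ _
  unfold L
  rw [intervalIntegral.integral_add (((hi _).sub (hi _)).sub (hi _)) (hi _),
    intervalIntegral.integral_sub ((hi _).sub (hi _)) (hi _),
    intervalIntegral.integral_sub (hi _) (hi _), int_r, int_r, int_r, int_r]
  ring

/-- the hexagon in the plane -/
def H2 (a b c : ℝ) : Set (ℝ × ℝ) := {z | |z.1| ≤ a ∧ |z.2| ≤ b ∧ |z.1 + z.2| ≤ c}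

lemma H2_closed (a b c : ℝ) : IsClosed (H2 a b c) := by
  unfold H2
  exact (isClosed_le (continuous_fst.abs) continuous_const).inter
    ((isClosed_le (continuous_snd.abs) continuous_const).inter
      (isClosed_le ((continuous_fst.add continuous_snd).abs) continuous_const))

lemma section_eq (a b c x : ℝ) : Prod.mk x ⁻¹' H2 a b c =
    if |x| ≤ a then Set.Icc (max (-b) (-c - x)) (min b (c - x)) else ∅ := by
  ext y
  split_ifs with h
  · simp only [H2, Set.mem_preimage, Set.mem_ofPred_eq, Set.mem_Icc, max_le_iff, le_min_iff, abs_le]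
    rw [abs_le] at h
    constructor
    · rintro ⟨_, ⟨h1, h2⟩, h3, h4⟩
      exact ⟨⟨h1, by linarith⟩, h2, by linarith⟩
    · rintro ⟨⟨h1, h3⟩, h2, h4⟩
      exact ⟨h, ⟨h1, h2⟩, by linarith, by linarith⟩
  · simp only [H2, Set.mem_preimage, Set.mem_ofPred_eq, Set.mem_empty_iff_false, iff_false]
    exact fun h' => h h'.1

lemma vol_H2 (a b c : ℝ) (ha : 0 < a) (hb : 0 < b) (hc : 0 < c) :
    volume (H2 a b c) = ENNReal.ofReal (∫ x in (-a)..a, L b c x) := by
  rw [Measure.volume_eq_prod, Measure.prod_apply (H2_closed a b c).measurableSet]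
  have h1 : ∀ x : ℝ, volume (Prod.mk x ⁻¹' H2 a b c) =
      (Set.Icc (-a) a).indicator (fun x => ENNReal.ofReal (L b c x)) x := by
    intro x
    rw [section_eq]
    by_cases h : |x| ≤ a
    · rw [if_pos h, Set.indicator_of_mem (show x ∈ Set.Icc (-a) a from abs_le.1 h), Real.volume_Icc, L_eq b c x hb hc]
      rcases le_total 0 (min b (c - x) - max (-b) (-c - x)) with h2 | h2
      · rw [max_eq_right h2]
      · rw [max_eq_left h2, ENNReal.ofReal_of_nonpos h2, ENNReal.ofReal_zero]
    · rw [if_neg h, Set.indicator_of_notMem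
        (show x ∉ Set.Icc (-a) a from fun h' => h (abs_le.2 h')), measure_empty]
  simp_rw [h1]
  rw [lintegral_indicator measurableSet_Icc, intervalIntegral.integral_of_le (by linarith),
    ← integral_Icc_eq_integral_Ioc,
    ofReal_integral_eq_lintegral_ofReal
      ((L_cont b c).continuousOn.integrableOn_compact isCompact_Icc)
      (Filter.Eventually.of_forall fun x => L_nonneg b c x hb hc)]

lemma vol_hexa (a b c : ℝ) (ha : 0 < a) (hb : 0 < b) (hc : 0 < c) :
    volume (hexa a b c) = ENNReal.ofReal (∫ x in (-a)..a, L b c x) := by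
  rw [← vol_H2 a b c ha hb hc]
  have h := (volume_preserving_finTwoArrow ℝ).measure_preimage
    (H2_closed a b c).measurableSet.nullMeasurableSet
  rw [← h]
  rfl

lemma ident (a b c : ℝ) (ha : 0 < a) (hb : 0 < b) (hc : 0 < c) :
    (r (a + (b + c)) ^ 2 - r (-a + (b + c)) ^ 2 - r (a + (b - c)) ^ 2 + r (-a + (b - c)) ^ 2
      - r (a + (c - b)) ^ 2 + r (-a + (c - b)) ^ 2 + r (a + (-b - c)) ^ 2
      - r (-a + (-b - c)) ^ 2) / 2 =
    4 * a * b - max 0 (a + b - c) ^ 2 + max 0 (max 0 (a + b - c) - 2 * a) ^ 2 +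
      max 0 (max 0 (a + b - c) - 2 * b) ^ 2 := by
  have e1 : max 0 (a + b - c) = r (a + (b - c)) := by unfold r; ring_nf
  have e2 : max 0 (max 0 (a + b - c) - 2 * a) = r (-a + (b - c)) := by
    rw [e1]
    rcases le_total 0 (a + (b - c)) with h | h
    · rw [r_of_nonneg h]; unfold r; ring_nf
    · rw [r_of_nonpos h, r_of_nonpos (by linarith), max_eq_left (by linarith)]
  have e3 : max 0 (max 0 (a + b - c) - 2 * b) = r (a + (-b - c)) := by
    rw [e1]
    rcases le_total 0 (a + (b - c)) with h | h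
    · rw [r_of_nonneg h]; unfold r; ring_nf
    · rw [r_of_nonpos h, r_of_nonpos (by linarith), max_eq_left (by linarith)]
  rw [e2, e3, e1, r_of_nonneg (show 0 ≤ a + (b + c) by linarith),
    r_of_nonpos (show -a + (-b - c) ≤ 0 by linarith)]
  rcases le_total 0 (-a + (b + c)) with h1 | h1
  · have f1 : r (a + (-b - c)) = 0 := r_of_nonpos (by linarith)
    rw [f1, r_of_nonneg h1]
    rcases le_total 0 (a + (c - b)) with h3 | h3
    · have f3 : r (-a + (b - c)) = 0 := r_of_nonpos (by linarith)
      rw [f3, r_of_nonneg h3]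
      rcases le_total 0 (a + (b - c)) with h2 | h2
      · rw [r_of_nonneg h2, r_of_nonpos (show -a + (c - b) ≤ 0 by linarith)]; ring
      · rw [r_of_nonpos h2, r_of_nonneg (show 0 ≤ -a + (c - b) by linarith)]; ring
    · rw [r_of_nonpos h3, r_of_nonpos (show -a + (c - b) ≤ 0 by linarith),
        r_of_nonneg (show 0 ≤ a + (b - c) by linarith),
        r_of_nonneg (show 0 ≤ -a + (b - c) by linarith)]
      ring
  · rw [r_of_nonpos h1, r_of_nonneg (show 0 ≤ a + (-b - c) by linarith),
      r_of_nonneg (show 0 ≤ a + (b - c) by linarith),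
      r_of_nonpos (show -a + (b - c) ≤ 0 by linarith),
      r_of_nonneg (show 0 ≤ a + (c - b) by linarith),
      r_of_nonpos (show -a + (c - b) ≤ 0 by linarith)]
    ring

lemma hexa_closed (a b c : ℝ) : IsClosed (hexa a b c) := by
  unfold hexa
  exact (isClosed_le ((continuous_apply 0).abs) continuous_const).inter
    ((isClosed_le ((continuous_apply 1).abs) continuous_const).inter
      (isClosed_le (((continuous_apply 0).add (continuous_apply 1)).abs) continuous_const))

lemma hexa_body (a b c : ℝ) (ha : 0 < a) (hb : 0 < b) (hc : 0 < c) : Body (hexa a b c) := by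
  refine ⟨?_, ?_, ?_, ?_⟩
  · intro x hx y hy s t hs ht hst
    simp only [hexa, Set.mem_ofPred_eq, abs_le] at hx hy ⊢
    obtain ⟨⟨x1, x2⟩, ⟨x3, x4⟩, x5, x6⟩ := hx
    obtain ⟨⟨y1, y2⟩, ⟨y3, y4⟩, y5, y6⟩ := hy
    have e0 : (s • x + t • y) 0 = s * x 0 + t * y 0 := rfl
    have e1 : (s • x + t • y) 1 = s * x 1 + t * y 1 := rfl
    rw [e0, e1]
    have key : ∀ u v w : ℝ, u ≤ w → v ≤ w → s * u + t * v ≤ w := by
      intro u v w h1 h2
      have h3 : w = s * w + t * w := by rw [← add_mul, hst, one_mul]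
      have h4 := mul_le_mul_of_nonneg_left h1 hs
      have h5 := mul_le_mul_of_nonneg_left h2 ht
      linarith
    have key' : ∀ u v w : ℝ, -w ≤ u → -w ≤ v → -w ≤ s * u + t * v := by
      intro u v w h1 h2
      have := key (-u) (-v) w (by linarith) (by linarith)
      linarith
    have k1 := key _ _ _ x2 y2
    have k2 := key _ _ _ x4 y4
    have k3 := key _ _ _ x6 y6
    have k4 := key' _ _ _ x1 y1
    have k5 := key' _ _ _ x3 y3
    have k6 := key' _ _ _ x5 y5
    exact ⟨⟨k4, k1⟩, ⟨k5, k2⟩, by linarith, by linarith⟩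
  · refine IsCompact.of_isClosed_subset (isCompact_Icc (a := ![-a, -b]) (b := ![a, b]))
      (hexa_closed a b c) ?_
    intro x hx
    simp only [hexa, Set.mem_ofPred_eq, abs_le] at hx
    refine ⟨fun i => ?_, fun i => ?_⟩
    · fin_cases i
      · exact hx.1.1
      · exact hx.2.1.1
    · fin_cases i
      · exact hx.1.2
      · exact hx.2.1.2
  · intro x hx
    simp only [hexa, Set.mem_ofPred_eq, Pi.neg_apply] at hx ⊢
    refine ⟨by rw [abs_neg]; exact hx.1, by rw [abs_neg]; exact hx.2.1, ?_⟩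
    rw [← neg_add, abs_neg]; exact hx.2.2
  · refine ⟨0, mem_interior.2 ⟨{x : Fin 2 → ℝ | |x 0| < a ∧ |x 1| < b ∧ |x 0 + x 1| < c}, ?_, ?_, ?_⟩⟩
    · intro x hx
      exact ⟨hx.1.le, hx.2.1.le, hx.2.2.le⟩
    · exact (isOpen_lt ((continuous_apply 0).abs) continuous_const).inter
        ((isOpen_lt ((continuous_apply 1).abs) continuous_const).inter
          (isOpen_lt (((continuous_apply 0).add (continuous_apply 1)).abs) continuous_const))
    · simp only [Set.mem_ofPred_eq, Pi.zero_apply, abs_zero, add_zero]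
      exact ⟨ha, hb, hc⟩

end IX4

open IX4 in
theorem pr_X4 : St_X4 := by
  intro a b c ha hb hc
  have ha' : (0 : ℝ) < a := by exact_mod_cast ha
  have hb' : (0 : ℝ) < b := by exact_mod_cast hb
  have hc' : (0 : ℝ) < c := by exact_mod_cast hc
  refine ⟨hexa_body _ _ _ ha' hb' hc', ?_⟩
  rw [vol_hexa _ _ _ ha' hb' hc', ENNReal.toReal_ofReal, int_L, ident _ _ _ ha' hb' hc']
  · unfold hx
    push_cast
    ring
  · exact intervalIntegral.integral_nonneg (by linarith) fun x _ => L_nonneg _ _ _ hb' hc'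

end Pool.Agent.Work.MP_b25393_ag.HX
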