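import Pool.Agent.Work.MP_b25393_ag.HX.Stmts

/-!
# MP_b25393_ag, block HX, item X5: pairs of parallel directions
-/

set_option autoImplicit false

open scoped LinearAlgebra.Projectivization Pointwise Matrix
open MeasureTheory Filter Topology Matrix

namespace Pool.Agent.Work.MP_b25393_ag.HX

open Pool.Agent.Work.MP_b25393_ag Pool.Agent.Work.MP_b25393_ag.HF

namespace IX5

lemma card_DD : DD.card ≤ 84 := by decide +kernel

lemma ex_D : ∃ D : Finset (ℤ × ℤ), D.card ≤ 85 ∧ ∀ x : ℤ × ℤ, x = 0 ∨ x ∈ DD → x ∈ D := by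
  generalize hE : DD = E
  have hc : E.card ≤ 84 := hE ▸ card_DD
  refine ⟨insert 0 E, (Finset.card_insert_le _ _).trans (Nat.succ_le_succ hc), ?_⟩
  rintro x (h | h)
  · rw [h]
    exact Finset.mem_insert_self _ _
  · exact Finset.mem_insert_of_mem h

lemma cross_0 (v w : Fin 3 → ℤ) : (v ⨯₃ w) 0 = v 1 * w 2 - v 2 * w 1 := by
  simp [cross_apply]

lemma cross_1 (v w : Fin 3 → ℤ) : (v ⨯₃ w) 1 = v 2 * w 0 - v 0 * w 2 := by
  simp [cross_apply]

lemma cross_2 (v w : Fin 3 → ℤ) : (v ⨯₃ w) 2 = v 0 * w 1 - v 1 * w 0 := by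
  simp [cross_apply]

/-- proportional primitive vectors in the plane -/
lemma prop_prim (w w' : Fin 3 → ℤ) (h : Prm w) (h' : Prm w') (h2 : w 2 = 0) (h2' : w' 2 = 0)
    (hc : w 0 * w' 1 = w 1 * w' 0) : w' = w ∨ w' = -w := by
  have hcop : IsCoprime (w 0) (w 1) := by
    rw [Int.isCoprime_iff_gcd_eq_one]
    have hu : IsUnit ((Int.gcd (w 0) (w 1) : ℕ) : ℤ) := by
      apply h
      intro i
      fin_cases i
      · exact Int.gcd_dvd_left _ _
      · exact Int.gcd_dvd_right _ _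
      · show _ ∣ w 2
        rw [h2]
        exact dvd_zero _
    rcases Int.isUnit_iff.1 hu with h3 | h3
    · exact_mod_cast h3
    · exfalso
      have : (0 : ℤ) ≤ ((Int.gcd (w 0) (w 1) : ℕ) : ℤ) := Int.natCast_nonneg _
      omega
  obtain ⟨a, b, hab⟩ := hcop
  have e0 : w' 0 = (a * w' 0 + b * w' 1) * w 0 := by
    linear_combination (-(w' 0)) * hab + b * hc * (-1)
  have e1 : w' 1 = (a * w' 0 + b * w' 1) * w 1 := by
    linear_combination (-(w' 1)) * hab + a * hc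
  have hk : IsUnit (a * w' 0 + b * w' 1) := by
    apply h'
    intro i
    fin_cases i
    · exact ⟨w 0, e0⟩
    · exact ⟨w 1, e1⟩
    · show _ ∣ w' 2
      rw [h2']
      exact dvd_zero _
  rcases Int.isUnit_iff.1 hk with h3 | h3
  · left
    rw [h3, one_mul] at e0 e1
    funext i
    fin_cases i
    · exact e0
    · exact e1
    · show w' 2 = w 2
      rw [h2, h2']
  · right
    rw [h3] at e0 e1
    funext i
    fin_cases i
    · show w' 0 = -(w 0)
      rw [e0]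
      ring
    · show w' 1 = -(w 1)
      rw [e1]
      ring
    · show w' 2 = -(w 2)
      rw [h2, h2']
      ring

/-- the code of a pair -/
def cd (z : (Fin 3 → ℤ) × (Fin 3 → ℤ)) : (ℤ × ℤ) × (ℤ × ℤ) × ℤ × Bool :=
  ((z.1 0, z.1 1), (z.2 0, z.2 1), if (z.1 0, z.1 1) = (0 : ℤ × ℤ) then z.2 2 else z.1 2,
    if (z.1 0, z.1 1) = (0 : ℤ × ℤ) then decide (0 < z.1 2) else
      decide (0 < z.1 1 * (z.1 ⨯₃ z.2) 0 - z.1 0 * (z.1 ⨯₃ z.2) 1))

lemma not_prm_zero (w : Fin 3 → ℤ) (h : Prm w) (h0 : w 0 = 0) (h1 : w 1 = 0) (h2 : w 2 = 0) :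
    False := by
  have hu : IsUnit (0 : ℤ) := by
    apply h
    intro i
    fin_cases i
    · show _ ∣ w 0
      rw [h0]
    · show _ ∣ w 1
      rw [h1]
    · show _ ∣ w 2
      rw [h2]
  exact not_isUnit_zero hu

lemma cd_inj (z z' : (Fin 3 → ℤ) × (Fin 3 → ℤ)) (hp : Prm (z.1 ⨯₃ z.2))
    (hp' : Prm (z'.1 ⨯₃ z'.2)) (hd : dt (z.1 0, z.1 1) (z.2 0, z.2 1) = 0)
    (hd' : dt (z'.1 0, z'.1 1) (z'.2 0, z'.2 1) = 0) (h : cd z = cd z') : z = z' := by
  obtain ⟨v, w⟩ := z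
  obtain ⟨v', w'⟩ := z'
  simp only [dt] at hp hp' hd hd'
  unfold cd at h
  simp only [Prod.mk.injEq] at h
  obtain ⟨⟨h0, h1⟩, ⟨h2, h3⟩, h4, h5⟩ := h
  have c0 := cross_0 v w
  have c1 := cross_1 v w
  have c2 := cross_2 v w
  have c0' := cross_0 v' w'
  have c1' := cross_1 v' w'
  have c2' := cross_2 v' w'
  have c2z : (v ⨯₃ w) 2 = 0 := by rw [c2]; exact hd
  have c2z' : (v' ⨯₃ w') 2 = 0 := by rw [c2']; exact hd'
  by_cases hu : (v 0, v 1) = (0 : ℤ × ℤ)
  · have hu' : (v' 0, v' 1) = (0 : ℤ × ℤ) := by rw [← h0, ← h1]; exact hu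
    rw [if_pos hu, if_pos hu'] at h4 h5
    have hv0 : v 0 = 0 := congrArg Prod.fst hu
    have hv1 : v 1 = 0 := congrArg Prod.snd hu
    have hv0' : v' 0 = 0 := congrArg Prod.fst hu'
    have hv1' : v' 1 = 0 := congrArg Prod.snd hu'
    have hun : IsUnit (v 2) := by
      apply hp
      intro i
      fin_cases i
      · show _ ∣ (v ⨯₃ w) 0
        rw [c0, hv1]
        exact ⟨-(w 1), by ring⟩
      · show _ ∣ (v ⨯₃ w) 1
        rw [c1, hv0]
        exact ⟨w 0, by ring⟩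
      · show _ ∣ (v ⨯₃ w) 2
        rw [c2z]
        exact dvd_zero _
    have hun' : IsUnit (v' 2) := by
      apply hp'
      intro i
      fin_cases i
      · show _ ∣ (v' ⨯₃ w') 0
        rw [c0', hv1']
        exact ⟨-(w' 1), by ring⟩
      · show _ ∣ (v' ⨯₃ w') 1
        rw [c1', hv0']
        exact ⟨w' 0, by ring⟩
      · show _ ∣ (v' ⨯₃ w') 2
        rw [c2z']
        exact dvd_zero _
    have h5' : (0 < v 2 ↔ 0 < v' 2) := by
      have := decide_eq_decide.1 h5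
      exact this
    have hv2 : v 2 = v' 2 := by
      rcases Int.isUnit_iff.1 hun with a | a <;> rcases Int.isUnit_iff.1 hun' with b | b <;> omega
    refine Prod.ext ?_ ?_
    · funext i
      fin_cases i
      · exact h0
      · exact h1
      · exact hv2
    · funext i
      fin_cases i
      · exact h2
      · exact h3
      · exact h4
  · have hu' : ¬ (v' 0, v' 1) = (0 : ℤ × ℤ) := by rw [← h0, ← h1]; exact hu
    rw [if_neg hu, if_neg hu'] at h4 h5
    have h5' := decide_eq_decide.1 h5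
    -- the relations
    have r1 : v 0 * (v ⨯₃ w) 0 + v 1 * (v ⨯₃ w) 1 = 0 := by
      rw [c0, c1]
      linear_combination (-(v 2)) * hd
    have r1' : v 0 * (v' ⨯₃ w') 0 + v 1 * (v' ⨯₃ w') 1 = 0 := by
      rw [c0', c1', h0, h1]
      linear_combination (-(v' 2)) * hd'
    have hne : v 0 ≠ 0 ∨ v 1 ≠ 0 := by
      by_contra hno
      push Not at hno
      exact hu (Prod.ext hno.1 hno.2)
    have hcr : (v ⨯₃ w) 0 * (v' ⨯₃ w') 1 = (v ⨯₃ w) 1 * (v' ⨯₃ w') 0 := by
      rcases hne with hne | hne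
      · apply mul_left_cancel₀ hne
        linear_combination (v' ⨯₃ w') 1 * r1 - (v ⨯₃ w) 1 * r1'
      · apply mul_left_cancel₀ hne
        linear_combination (v ⨯₃ w) 0 * r1' - (v' ⨯₃ w') 0 * r1
    have hw : (v ⨯₃ w) = (v' ⨯₃ w') := by
      rcases prop_prim _ _ hp hp' c2z c2z' hcr with hh | hh
      · exact hh.symm
      · exfalso
        have g0 : (v' ⨯₃ w') 0 = -((v ⨯₃ w) 0) := by rw [hh]; rfl
        have g1 : (v' ⨯₃ w') 1 = -((v ⨯₃ w) 1) := by rw [hh]; rfl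
        rw [g0, g1, ← h0, ← h1] at h5'
        have hs : v 1 * (v ⨯₃ w) 0 - v 0 * (v ⨯₃ w) 1 = 0 := by
          have hneg : v 1 * -((v ⨯₃ w) 0) - v 0 * -((v ⨯₃ w) 1) =
            -(v 1 * (v ⨯₃ w) 0 - v 0 * (v ⨯₃ w) 1) := by ring
          rw [hneg] at h5'
          omega
        have hsq : v 0 ^ 2 + v 1 ^ 2 ≠ 0 := by
          rcases hne with hne | hne <;> positivity
        have z0 : (v ⨯₃ w) 0 = 0 := by
          apply mul_left_cancel₀ hsq
          linear_combination v 0 * r1 + v 1 * hs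
        have z1 : (v ⨯₃ w) 1 = 0 := by
          apply mul_left_cancel₀ hsq
          linear_combination v 1 * r1 - v 0 * hs
        exact not_prm_zero _ hp z0 z1 c2z
    have hw2 : w 2 = w' 2 := by
      have k0 : (v ⨯₃ w) 0 = (v' ⨯₃ w') 0 := by rw [hw]
      have k1 : (v ⨯₃ w) 1 = (v' ⨯₃ w') 1 := by rw [hw]
      rw [c0, c0', ← h1, ← h3, ← h4] at k0
      rw [c1, c1', ← h0, ← h2, ← h4] at k1
      rcases hne with hne | hne
      · apply mul_left_cancel₀ hne
        linarith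
      · apply mul_left_cancel₀ hne
        linarith
    refine Prod.ext ?_ ?_
    · funext i
      fin_cases i
      · exact h0
      · exact h1
      · exact h4
    · funext i
      fin_cases i
      · exact h2
      · exact h3
      · exact hw2

end IX5

open IX5 in
theorem pr_X5 (hX1 : St_X1) : St_X5 := by
  classical
  intro R hR
  obtain ⟨-, -, hdir, hb, -, -⟩ := hX1 R (by linarith)
  set Z : Set ((Fin 3 → ℤ) × (Fin 3 → ℤ)) :=
    {z | z ∈ P2 (CC R) ∧ dt (z.1 0, z.1 1) (z.2 0, z.2 1) = 0} with hZ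
  set M : ℕ := ⌊34 * R⌋₊ with hM
  have hMle : (M : ℝ) ≤ 34 * R := Nat.floor_le (by linarith)
  have hint : ∀ c : ℤ, |(c : ℝ)| ≤ 34 * R → c ∈ Finset.Icc (-(M : ℤ)) (M : ℤ) := by
    intro c hc
    have h1 : |c| ≤ (M : ℤ) := by
      have h2 : ((c.natAbs : ℕ) : ℝ) ≤ 34 * R := by
        rw [Nat.cast_natAbs]
        push_cast
        exact hc
      have h3 : c.natAbs ≤ M := Nat.le_floor h2
      rw [Int.abs_eq_natAbs]
      exact_mod_cast h3
    rw [Finset.mem_Icc]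
    exact abs_le.1 h1
  obtain ⟨D, hDc, hDm⟩ := ex_D
  have hmem : ∀ v : Fin 3 → ℤ, toR v ∈ CC R → (v 0, v 1) ∈ D := by
    intro v hv
    by_cases h : (v 0, v 1) = (0 : ℤ × ℤ)
    · exact hDm _ (Or.inl h)
    · exact hDm _ (Or.inr ((hdir v h).1 hv).1)
  set B : Finset ((ℤ × ℤ) × (ℤ × ℤ) × ℤ × Bool) :=
    D ×ˢ (D ×ˢ ((Finset.Icc (-(M : ℤ)) (M : ℤ)) ×ˢ (Finset.univ : Finset Bool))) with hB
  have hmaps : Set.MapsTo cd Z (B : Set ((ℤ × ℤ) × (ℤ × ℤ) × ℤ × Bool)) := by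
    rintro z ⟨⟨hz1, hz2, -⟩, -⟩
    rw [Finset.mem_coe, hB, Finset.mem_product, Finset.mem_product, Finset.mem_product]
    refine ⟨hmem _ hz1, hmem _ hz2, ?_, Finset.mem_univ _⟩
    unfold cd
    simp only
    split_ifs
    · exact hint _ (hb _ hz2)
    · exact hint _ (hb _ hz1)
  have hinj : Set.InjOn cd Z := by
    rintro z ⟨⟨-, -, hz⟩, hzd⟩ z' ⟨⟨-, -, hz'⟩, hzd'⟩ h
    exact cd_inj z z' hz hz' hzd hzd' h
  have hfin : Z.Finite := Set.Finite.of_injOn hmaps hinj B.finite_toSet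
  refine ⟨hfin, ?_⟩
  have hcard : Z.ncard ≤ B.card := by
    have h1 := Set.ncard_le_ncard_of_injOn cd hmaps hinj B.finite_toSet
    rwa [Set.ncard_coe_finset] at h1
  have hBc : B.card ≤ 85 * (85 * ((2 * M + 1) * 2)) := by
    rw [hB, Finset.card_product, Finset.card_product, Finset.card_product, Int.card_Icc,
      Finset.card_univ, Fintype.card_bool]
    have h1 : ((M : ℤ) + 1 - -(M : ℤ)).toNat = 2 * M + 1 := by omega
    rw [h1]
    gcongr
  have hfinal : ((Z.ncard : ℕ) : ℝ) ≤ 85 * (85 * ((2 * (M : ℝ) + 1) * 2)) := by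
    have := hcard.trans hBc
    exact_mod_cast this
  refine hfinal.trans ?_
  nlinarith

end Pool.Agent.Work.MP_b25393_ag.HX
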