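import Pool.Agent.Work.MP_b25393_ag.HX.Stmts

/-!
# MP_b25393_ag, block HX, item X6: the number of pairs
-/

set_option autoImplicit false

open scoped LinearAlgebra.Projectivization Pointwise Matrix
open MeasureTheory Filter Topology Matrix

namespace Pool.Agent.Work.MP_b25393_ag.HX

open Pool.Agent.Work.MP_b25393_ag Pool.Agent.Work.MP_b25393_ag.HF

attribute [local irreducible] DD

namespace IX6

theorem wd_pos (u : ℤ × ℤ) : 0 < wd u := by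
  unfold wd
  split_ifs <;> norm_num

theorem hx_box (a b : ℤ) (ha : 0 < a) (hb : 0 < b) : hx a b (a + b) = 4 * a * b := by
  unfold hx
  have h1 : max 0 (a + b - (a + b)) = 0 := by rw [sub_self, max_self]
  have h2 : max 0 (0 - 2 * a) = 0 := max_eq_left (by linarith)
  have h3 : max 0 (0 - 2 * b) = 0 := max_eq_left (by linarith)
  rw [h1, h2, h3]
  ring

/-- membership in the dilated hexagon -/
theorem mem_hexa (a b : ℤ) (R : ℝ) (hR : 0 < R) (z : Fin 2 → ℤ) :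
    toR z ∈ R • hexa a b ((a + b : ℤ) : ℝ) ↔
      |(z 0 : ℝ)| ≤ R * (a : ℝ) ∧ |(z 1 : ℝ)| ≤ R * (b : ℝ) := by
  rw [Set.mem_smul_set_iff_inv_smul_mem₀ hR.ne']
  have hR' : 0 < R⁻¹ := inv_pos.2 hR
  show (|(R⁻¹ • toR z) 0| ≤ (a : ℝ) ∧ |(R⁻¹ • toR z) 1| ≤ (b : ℝ) ∧
    |(R⁻¹ • toR z) 0 + (R⁻¹ • toR z) 1| ≤ ((a + b : ℤ) : ℝ)) ↔ _
  simp only [Pi.smul_apply, smul_eq_mul, toR]
  have e : ∀ (x c : ℝ), |R⁻¹ * x| ≤ c ↔ |x| ≤ R * c := by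
    intro x c
    rw [abs_mul, abs_of_pos hR', inv_mul_le_iff₀ hR]
  rw [e, e]
  constructor
  · rintro ⟨h1, h2, -⟩
    exact ⟨h1, h2⟩
  · rintro ⟨h1, h2⟩
    refine ⟨h1, h2, ?_⟩
    refine (abs_add_le _ _).trans ?_
    have h3 := (e _ _).2 h1
    have h4 := (e _ _).2 h2
    push_cast
    linarith

/-- the integral points for a pair of directions -/
def FF (p : (ℤ × ℤ) × (ℤ × ℤ)) (R : ℝ) : Set (Fin 2 → ℤ) :=
  {z | toR z ∈ R • hexa (wd p.1) (wd p.2) ((wd p.1 + wd p.2 : ℤ) : ℝ) ∧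
    Prm (vc p.1 (z 0) ⨯₃ vc p.2 (z 1))}

theorem FF_fin (p : (ℤ × ℤ) × (ℤ × ℤ)) (R : ℝ) (hR : 0 < R) : (FF p R).Finite := by
  have h : FF p R ⊆ Set.pi Set.univ
      (fun _ : Fin 2 => Set.Icc (-(⌈R * (wd p.1 : ℝ)⌉ + ⌈R * (wd p.2 : ℝ)⌉))
        (⌈R * (wd p.1 : ℝ)⌉ + ⌈R * (wd p.2 : ℝ)⌉)) := by
    rintro z ⟨hz, -⟩
    rw [mem_hexa _ _ R hR] at hz
    obtain ⟨h1, h2⟩ := hz
    have p1 : (0 : ℝ) < R * (wd p.1 : ℝ) := mul_pos hR (by exact_mod_cast wd_pos p.1)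
    have p2 : (0 : ℝ) < R * (wd p.2 : ℝ) := mul_pos hR (by exact_mod_cast wd_pos p.2)
    have c1 := Int.le_ceil (R * (wd p.1 : ℝ))
    have c2 := Int.le_ceil (R * (wd p.2 : ℝ))
    have key : ∀ x : ℤ, |(x : ℝ)| ≤ (⌈R * (wd p.1 : ℝ)⌉ : ℝ) + (⌈R * (wd p.2 : ℝ)⌉ : ℝ) →
        x ∈ Set.Icc (-(⌈R * (wd p.1 : ℝ)⌉ + ⌈R * (wd p.2 : ℝ)⌉))
          (⌈R * (wd p.1 : ℝ)⌉ + ⌈R * (wd p.2 : ℝ)⌉) := by
      intro x hx
      obtain ⟨g1, g2⟩ := abs_le.1 hx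
      constructor
      · exact_mod_cast g1
      · exact_mod_cast g2
    have k0 : z 0 ∈ Set.Icc (-(⌈R * (wd p.1 : ℝ)⌉ + ⌈R * (wd p.2 : ℝ)⌉))
          (⌈R * (wd p.1 : ℝ)⌉ + ⌈R * (wd p.2 : ℝ)⌉) := key _ (by linarith)
    have k1 : z 1 ∈ Set.Icc (-(⌈R * (wd p.1 : ℝ)⌉ + ⌈R * (wd p.2 : ℝ)⌉))
          (⌈R * (wd p.1 : ℝ)⌉ + ⌈R * (wd p.2 : ℝ)⌉) := key _ (by linarith)
    intro i _
    fin_cases i
    · exact k0
    · exact k1
  exact (Set.Finite.pi' fun _ => Set.finite_Icc _ _).subset (by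
    intro z hz i
    exact h hz i (Set.mem_univ i))

/-- the pairs of vectors -/
def ph (p : (ℤ × ℤ) × (ℤ × ℤ)) (z : Fin 2 → ℤ) : (Fin 3 → ℤ) × (Fin 3 → ℤ) :=
  (vc p.1 (z 0), vc p.2 (z 1))

theorem vc_2 (u : ℤ × ℤ) (c : ℤ) : vc u c 2 = c := rfl

theorem vc_0 (u : ℤ × ℤ) (c : ℤ) : vc u c 0 = u.1 := rfl

theorem vc_1 (u : ℤ × ℤ) (c : ℤ) : vc u c 1 = u.2 := rfl

theorem vc_eq (v : Fin 3 → ℤ) : vc (v 0, v 1) (v 2) = v := by
  funext i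
  fin_cases i <;> rfl

theorem ph_inj (p : (ℤ × ℤ) × (ℤ × ℤ)) : Function.Injective (ph p) := by
  intro z z' h
  have h1 : vc p.1 (z 0) = vc p.1 (z' 0) := congrArg Prod.fst h
  have h2 : vc p.2 (z 1) = vc p.2 (z' 1) := congrArg Prod.snd h
  funext i
  fin_cases i
  · have := congrFun h1 2
    rwa [vc_2, vc_2] at this
  · have := congrFun h2 2
    rwa [vc_2, vc_2] at this

/-- the non parallel pairs of directions -/
def TT : Finset ((ℤ × ℤ) × (ℤ × ℤ)) := (DD ×ˢ DD).filter (fun p => dt p.1 p.2 ≠ 0)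

theorem mem_TT (p : (ℤ × ℤ) × (ℤ × ℤ)) : p ∈ TT ↔ (p.1 ∈ DD ∧ p.2 ∈ DD) ∧ dt p.1 p.2 ≠ 0 := by
  unfold TT
  rw [Finset.mem_filter, Finset.mem_product]

theorem sum_TT (f : (ℤ × ℤ) → (ℤ × ℤ) → ℝ) (hf : ∀ u v, f u v ≠ 0 → dt u v ≠ 0) :
    ∑ p ∈ TT, f p.1 p.2 = ∑ u ∈ DD, ∑ v ∈ DD, f u v := by
  unfold TT
  rw [Finset.sum_filter_of_ne (fun p _ h => hf p.1 p.2 h), Finset.sum_product]

attribute [local irreducible] TT

theorem ne_zero_of_dt {u v : ℤ × ℤ} (h : dt u v ≠ 0) : u ≠ 0 ∧ v ≠ 0 := by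
  constructor
  · rintro rfl
    exact h (by simp [dt])
  · rintro rfl
    exact h (by simp [dt])

theorem P2_eq (hX1 : St_X1) (R : ℝ) (hR : 0 < R) :
    P2 (CC R) = {z | z ∈ P2 (CC R) ∧ dt (z.1 0, z.1 1) (z.2 0, z.2 1) = 0} ∪
      ⋃ p ∈ TT, ph p '' FF p R := by
  obtain ⟨-, -, hC, -⟩ := hX1 R hR
  ext z
  constructor
  · intro hz
    by_cases hd : dt (z.1 0, z.1 1) (z.2 0, z.2 1) = 0
    · exact Or.inl ⟨hz, hd⟩
    · right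
      obtain ⟨n1, n2⟩ := ne_zero_of_dt hd
      obtain ⟨m1, w1⟩ := (hC z.1 n1).1 hz.1
      obtain ⟨m2, w2⟩ := (hC z.2 n2).1 hz.2.1
      refine Set.mem_iUnion₂.2 ⟨((z.1 0, z.1 1), (z.2 0, z.2 1)),
        (mem_TT _).2 ⟨⟨m1, m2⟩, hd⟩, ![z.1 2, z.2 2], ⟨?_, ?_⟩, ?_⟩
      · rw [mem_hexa _ _ R hR]
        exact ⟨w1, w2⟩
      · show Prm (vc (z.1 0, z.1 1) (z.1 2) ⨯₃ vc (z.2 0, z.2 1) (z.2 2))
        rw [vc_eq, vc_eq]
        exact hz.2.2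
      · show (vc (z.1 0, z.1 1) (z.1 2), vc (z.2 0, z.2 1) (z.2 2)) = z
        rw [vc_eq, vc_eq]
  · rintro (hz | hz)
    · exact hz.1
    · obtain ⟨p, hp, x, hx, rfl⟩ := Set.mem_iUnion₂.1 hz
      obtain ⟨⟨hp3, hp4⟩, hp2⟩ := (mem_TT p).1 hp
      obtain ⟨n1, n2⟩ := ne_zero_of_dt hp2
      obtain ⟨hx1, hx2⟩ := hx
      rw [mem_hexa _ _ R hR] at hx1
      refine ⟨?_, ?_, hx2⟩
      · exact (hC (vc p.1 (x 0)) n1).2 ⟨hp3, hx1.1⟩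
      · exact (hC (vc p.2 (x 1)) n2).2 ⟨hp4, hx1.2⟩

theorem card_eq (hX1 : St_X1) (hX5 : St_X5) (R : ℝ) (hR : 1 ≤ R) :
    (P2 (CC R)).ncard = {z | z ∈ P2 (CC R) ∧ dt (z.1 0, z.1 1) (z.2 0, z.2 1) = 0}.ncard +
      ∑ p ∈ TT, (FF p R).ncard := by
  classical
  have hR0 : 0 < R := lt_of_lt_of_le one_pos hR
  have hfin : ∀ p, (ph p '' FF p R).Finite := fun p => (FF_fin p R hR0).image _
  have hB : (⋃ p ∈ TT, ph p '' FF p R) = ((TT.biUnion fun p => (hfin p).toFinset : Finset _) :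
      Set ((Fin 3 → ℤ) × (Fin 3 → ℤ))) := by
    ext z
    simp only [Set.mem_iUnion, Finset.coe_biUnion, Finset.mem_coe, Set.Finite.coe_toFinset]
  rw [P2_eq hX1 R hR0]
  have hset : {z | z ∈ {z | z ∈ P2 (CC R) ∧ dt (z.1 0, z.1 1) (z.2 0, z.2 1) = 0} ∪
      ⋃ p ∈ TT, ph p '' FF p R ∧ dt (z.1 0, z.1 1) (z.2 0, z.2 1) = 0} =
      {z | z ∈ P2 (CC R) ∧ dt (z.1 0, z.1 1) (z.2 0, z.2 1) = 0} := by
    rw [← P2_eq hX1 R hR0]
  rw [hset, hB, Set.ncard_union_eq ?_ (hX5 R hR).1 (Finset.finite_toSet _), Set.ncard_coe_finset,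
    Finset.card_biUnion]
  · congr 1
    refine Finset.sum_congr rfl fun p _ => ?_
    rw [← Set.ncard_eq_toFinset_card _ (hfin p), Set.ncard_image_of_injective _ (ph_inj p)]
  · intro p _ p' _ hne
    show Disjoint (hfin p).toFinset (hfin p').toFinset
    rw [Finset.disjoint_left]
    intro z hz hz'
    rw [Set.Finite.mem_toFinset] at hz hz'
    obtain ⟨x, -, rfl⟩ := hz
    obtain ⟨x', -, h⟩ := hz'
    apply hne
    have h1 : vc p'.1 (x' 0) = vc p.1 (x 0) := congrArg Prod.fst h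
    have h2 : vc p'.2 (x' 1) = vc p.2 (x 1) := congrArg Prod.snd h
    refine Prod.ext (Prod.ext ?_ ?_) (Prod.ext ?_ ?_)
    · have := congrFun h1 0
      rw [vc_0, vc_0] at this
      exact this.symm
    · have := congrFun h1 1
      rw [vc_1, vc_1] at this
      exact this.symm
    · have := congrFun h2 0
      rw [vc_0, vc_0] at this
      exact this.symm
    · have := congrFun h2 1
      rw [vc_1, vc_1] at this
      exact this.symm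
  · rw [Set.disjoint_left]
    intro z hz hz'
    rw [← hB] at hz'
    obtain ⟨p, hp, x, -, rfl⟩ := Set.mem_iUnion₂.1 hz'
    exact ((mem_TT p).1 hp).2 hz.2

end IX6

open IX6

theorem pr_X6 (hX1 : St_X1) (hX3 : St_X3) (hX4 : St_X4) (hX5 : St_X5) : St_X6 := by
  have hlim : ∀ p ∈ TT, Tendsto (fun R : ℝ => (((FF p R).ncard : ℕ) : ℝ) / R ^ 2) atTop
      (𝓝 ((om p.1 p.2 : ℝ) * (4 * (wd p.1 : ℝ) * (wd p.2 : ℝ)))) := by
    intro p hp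
    have hp2 := ((mem_TT p).1 hp).2
    obtain ⟨hb, hv⟩ := hX4 (wd p.1) (wd p.2) (wd p.1 + wd p.2) (wd_pos _) (wd_pos _)
      (add_pos (wd_pos _) (wd_pos _))
    have h := hX3 p.1 p.2 hp2 _ hb
    rw [hv, hx_box _ _ (wd_pos _) (wd_pos _)] at h
    push_cast at h
    have e : (fun R : ℝ => (((FF p R).ncard : ℕ) : ℝ) / R ^ 2) =
        fun R : ℝ => (({z : Fin 2 → ℤ | toR z ∈ R • hexa (wd p.1) (wd p.2)
          ((wd p.1 : ℝ) + (wd p.2 : ℝ)) ∧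
          Prm (vc p.1 (z 0) ⨯₃ vc p.2 (z 1))}.ncard : ℕ) : ℝ) / R ^ 2 := by
      funext R
      unfold FF
      push_cast
      rfl
    rw [e]
    exact h
  have hZ : Tendsto (fun R : ℝ => ((({z | z ∈ P2 (CC R) ∧
      dt (z.1 0, z.1 1) (z.2 0, z.2 1) = 0}.ncard : ℕ) : ℝ)) / R ^ 2) atTop (𝓝 0) := by
    have h0 : Tendsto (fun R : ℝ => 2 * 10 ^ 6 * R⁻¹) atTop (𝓝 0) := by
      have := tendsto_inv_atTop_zero (𝕜 := ℝ)
      simpa using this.const_mul (2 * 10 ^ 6 : ℝ)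
    refine squeeze_zero' ?_ ?_ h0
    · filter_upwards with R
      positivity
    · filter_upwards [eventually_ge_atTop (1 : ℝ)] with R hR
      have hR0 : 0 < R := lt_of_lt_of_le one_pos hR
      rw [div_le_iff₀ (by positivity)]
      have := (hX5 R hR).2
      calc _ ≤ 2 * 10 ^ 6 * R := this
        _ = 2 * 10 ^ 6 * R⁻¹ * R ^ 2 := by
          field_simp
  have hsum : Tendsto (fun R : ℝ => ((({z | z ∈ P2 (CC R) ∧
      dt (z.1 0, z.1 1) (z.2 0, z.2 1) = 0}.ncard : ℕ) : ℝ)) / R ^ 2 +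
      ∑ p ∈ TT, (((FF p R).ncard : ℕ) : ℝ) / R ^ 2) atTop
      (𝓝 (0 + ∑ p ∈ TT, (om p.1 p.2 : ℝ) * (4 * (wd p.1 : ℝ) * (wd p.2 : ℝ)))) :=
    hZ.add (tendsto_finsetSum _ hlim)
  have hP : (0 + ∑ p ∈ TT, (om p.1 p.2 : ℝ) * (4 * (wd p.1 : ℝ) * (wd p.2 : ℝ))) = (PPq : ℝ) := by
    rw [zero_add, sum_TT (fun u v => (om u v : ℝ) * (4 * (wd u : ℝ) * (wd v : ℝ)))]
    · unfold PPq
      push_cast
      rfl
    · intro u v hne hd
      apply hne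
      unfold om
      rw [if_neg (fun h => h.1 hd), Rat.cast_zero, zero_mul]
  rw [hP] at hsum
  refine hsum.congr' ?_
  filter_upwards [eventually_ge_atTop (1 : ℝ)] with R hR
  rw [card_eq hX1 hX5 R hR, Nat.cast_add, Nat.cast_sum, add_div, Finset.sum_div]

end Pool.Agent.Work.MP_b25393_ag.HX
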