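import Pool.Agent.Work.MP_b25393_ag.HX.Stmts

/-!
# MP_b25393_ag, block HX, item X7: the number of triangles
-/

set_option autoImplicit false

open scoped LinearAlgebra.Projectivization Pointwise Matrix
open MeasureTheory Filter Topology Matrix

namespace Pool.Agent.Work.MP_b25393_ag.HX

open Pool.Agent.Work.MP_b25393_ag Pool.Agent.Work.MP_b25393_ag.HF

attribute [local irreducible] DD

namespace IX7

/-- the directions of a pair -/
def dir (z : (Fin 3 → ℤ) × (Fin 3 → ℤ)) : (ℤ × ℤ) × (ℤ × ℤ) :=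
  ((z.1 0, z.1 1), (z.2 0, z.2 1))

/-- the set counted for one pair of directions -/
def HH (u v : ℤ × ℤ) (R : ℝ) : Set (Fin 2 → ℤ) :=
  {z | toR z ∈ R • hexa (wd u : ℝ) (wd v : ℝ) (wd (u + v) : ℝ) ∧
    Prm (vc u (z 0) ⨯₃ vc v (z 1))}

/-- the pairs which are not parallel -/
def NN (R : ℝ) : Set ((Fin 3 → ℤ) × (Fin 3 → ℤ)) :=
  {z | z ∈ Q2 (CC R) ∧ dt (z.1 0, z.1 1) (z.2 0, z.2 1) ≠ 0}

theorem mem_smul_hexa {R : ℝ} (hR : 0 < R) (a b c : ℝ) (x : Fin 2 → ℝ) :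
    x ∈ R • hexa a b c ↔ |x 0| ≤ R * a ∧ |x 1| ≤ R * b ∧ |x 0 + x 1| ≤ R * c := by
  rw [Set.mem_smul_set_iff_inv_smul_mem₀ hR.ne']
  unfold hexa
  rw [Set.mem_setOf_eq, Pi.smul_apply, Pi.smul_apply, smul_eq_mul, smul_eq_mul, ← mul_add,
    abs_mul, abs_mul, abs_mul, abs_inv, abs_of_pos hR, inv_mul_le_iff₀ hR, inv_mul_le_iff₀ hR,
    inv_mul_le_iff₀ hR]

theorem vc_add (u v : ℤ × ℤ) (c c' : ℤ) : vc u c + vc v c' = vc (u + v) (c + c') := by
  funext i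
  fin_cases i <;> simp [vc]

theorem vc_eta (v : Fin 3 → ℤ) : v = vc (v 0, v 1) (v 2) := by
  funext i
  fin_cases i <;> simp [vc]

theorem ne_zero_left {u v : ℤ × ℤ} (h : dt u v ≠ 0) : u ≠ 0 := by
  rintro rfl
  apply h
  simp [dt]

theorem ne_zero_right {u v : ℤ × ℤ} (h : dt u v ≠ 0) : v ≠ 0 := by
  rintro rfl
  apply h
  simp [dt]

theorem ne_zero_add {u v : ℤ × ℤ} (h : dt u v ≠ 0) : u + v ≠ 0 := by
  intro h0
  apply h
  have : v = -u := eq_neg_of_add_eq_zero_right h0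
  rw [this]
  simp [dt]
  ring

theorem mem_CC (hX1 : St_X1) {R : ℝ} (hR : 0 < R) {u : ℤ × ℤ} (hu : u ≠ 0) (c : ℤ) :
    toR (vc u c) ∈ CC R ↔ u ∈ DD ∧ |(c : ℝ)| ≤ R * (wd u : ℝ) := by
  have h := (hX1 R hR).2.2.1 (vc u c) (by
    have : ((vc u c) 0, (vc u c) 1) = u := by simp [vc]
    rw [this]; exact hu)
  have e1 : ((vc u c) 0, (vc u c) 1) = u := by simp [vc]
  have e2 : (vc u c) 2 = c := by simp [vc]
  rw [e1, e2] at h
  exact h

theorem mem_Q2 (hX1 : St_X1) {R : ℝ} (hR : 0 < R) {u v : ℤ × ℤ} (h : dt u v ≠ 0)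
    (z : Fin 2 → ℤ) : (vc u (z 0), vc v (z 1)) ∈ Q2 (CC R) ↔
      (u ∈ DD ∧ v ∈ DD ∧ u + v ∈ DD) ∧ z ∈ HH u v R := by
  unfold Q2 HH
  rw [Set.mem_setOf_eq, Set.mem_setOf_eq, mem_smul_hexa hR]
  show toR (vc u (z 0)) ∈ CC R ∧ toR (vc v (z 1)) ∈ CC R ∧
    toR (vc u (z 0) + vc v (z 1)) ∈ CC R ∧ Prm (vc u (z 0) ⨯₃ vc v (z 1)) ↔ _
  rw [vc_add, mem_CC hX1 hR (ne_zero_left h), mem_CC hX1 hR (ne_zero_right h),
    mem_CC hX1 hR (ne_zero_add h)]
  have e : ((z 0 + z 1 : ℤ) : ℝ) = toR z 0 + toR z 1 := by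
    unfold toR
    push_cast
    rfl
  rw [e]
  show (u ∈ DD ∧ |toR z 0| ≤ _) ∧ (v ∈ DD ∧ |toR z 1| ≤ _) ∧ _ ↔ _
  tauto

theorem HH_finite {R : ℝ} (hR : 0 < R) (u v : ℤ × ℤ) : (HH u v R).Finite := by
  obtain ⟨M, hM⟩ := exists_nat_ge (max (R * (wd u : ℝ)) (R * (wd v : ℝ)))
  refine (Set.finite_Icc (fun _ : Fin 2 => (-(M : ℤ))) (fun _ => (M : ℤ))).subset ?_
  rintro z ⟨hz, -⟩
  rw [mem_smul_hexa hR] at hz
  have h0 : |(z 0 : ℝ)| ≤ M := (hz.1.trans (le_max_left _ _)).trans hM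
  have h1 : |(z 1 : ℝ)| ≤ M := (hz.2.1.trans (le_max_right _ _)).trans hM
  have h0' : |z 0| ≤ (M : ℤ) := by exact_mod_cast h0
  have h1' : |z 1| ≤ (M : ℤ) := by exact_mod_cast h1
  rw [abs_le] at h0' h1'
  constructor
  · intro i
    fin_cases i
    · exact h0'.1
    · exact h1'.1
  · intro i
    fin_cases i
    · exact h0'.2
    · exact h1'.2

/-- the pairs with given directions -/
theorem fibre (hX1 : St_X1) {R : ℝ} (hR : 0 < R) (u v : ℤ × ℤ) (hu : u ∈ DD) (hv : v ∈ DD) :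
    {z | z ∈ NN R ∧ dir z = (u, v)} =
      if dt u v ≠ 0 ∧ u + v ∈ DD then (fun z : Fin 2 → ℤ => (vc u (z 0), vc v (z 1))) '' HH u v R
      else ∅ := by
  split_ifs with h
  · ext z
    constructor
    · rintro ⟨⟨hz, -⟩, hd⟩
      have h1 : (z.1 0, z.1 1) = u := congrArg Prod.fst hd
      have h2 : (z.2 0, z.2 1) = v := congrArg Prod.snd hd
      have e1 : z.1 = vc u (z.1 2) := by rw [← h1]; exact vc_eta z.1
      have e2 : z.2 = vc v (z.2 2) := by rw [← h2]; exact vc_eta z.2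
      have e : z = (vc u ((![z.1 2, z.2 2] : Fin 2 → ℤ) 0), vc v ((![z.1 2, z.2 2] : Fin 2 → ℤ) 1)) :=
        Prod.ext e1 e2
      refine ⟨![z.1 2, z.2 2], ?_, e.symm⟩
      rw [e] at hz
      exact ((mem_Q2 hX1 hR h.1 _).1 hz).2
    · rintro ⟨y, hy, rfl⟩
      refine ⟨⟨(mem_Q2 hX1 hR h.1 y).2 ⟨⟨hu, hv, h.2⟩, hy⟩, ?_⟩, ?_⟩
      · show dt ((vc u (y 0)) 0, (vc u (y 0)) 1) ((vc v (y 1)) 0, (vc v (y 1)) 1) ≠ 0
        have e1 : ((vc u (y 0)) 0, (vc u (y 0)) 1) = u := by simp [vc]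
        have e2 : ((vc v (y 1)) 0, (vc v (y 1)) 1) = v := by simp [vc]
        rw [e1, e2]
        exact h.1
      · simp [dir, vc]
  · ext z
    constructor
    · rintro ⟨⟨hz, hne⟩, hd⟩
      exfalso
      have h1 : (z.1 0, z.1 1) = u := congrArg Prod.fst hd
      have h2 : (z.2 0, z.2 1) = v := congrArg Prod.snd hd
      have e1 : z.1 = vc u (z.1 2) := by rw [← h1]; exact vc_eta z.1
      have e2 : z.2 = vc v (z.2 2) := by rw [← h2]; exact vc_eta z.2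
      rw [h1, h2] at hne
      have e : z = (vc u ((![z.1 2, z.2 2] : Fin 2 → ℤ) 0), vc v ((![z.1 2, z.2 2] : Fin 2 → ℤ) 1)) :=
        Prod.ext e1 e2
      rw [e] at hz
      exact h ⟨hne, ((mem_Q2 hX1 hR hne _).1 hz).1.2.2⟩
    · intro hz
      exact absurd hz (Set.notMem_empty z)

theorem dir_mem (hX1 : St_X1) {R : ℝ} (hR : 0 < R) {z : (Fin 3 → ℤ) × (Fin 3 → ℤ)}
    (hz : z ∈ NN R) : dir z ∈ DD ×ˢ DD := by
  obtain ⟨hz, hne⟩ := hz
  have e : z = (vc (z.1 0, z.1 1) ((![z.1 2, z.2 2] : Fin 2 → ℤ) 0),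
      vc (z.2 0, z.2 1) ((![z.1 2, z.2 2] : Fin 2 → ℤ) 1)) :=
    Prod.ext (vc_eta z.1) (vc_eta z.2)
  have hz' := hz
  rw [e] at hz'
  have := ((mem_Q2 hX1 hR hne _).1 hz').1
  exact Finset.mem_product.2 ⟨this.1, this.2.1⟩

theorem inj_pair (u v : ℤ × ℤ) :
    Function.Injective (fun z : Fin 2 → ℤ => (vc u (z 0), vc v (z 1))) := by
  intro z y h
  have h1 := congrFun (congrArg Prod.fst h) 2
  have h2 := congrFun (congrArg Prod.snd h) 2
  simp [vc] at h1 h2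
  funext i
  fin_cases i
  · exact h1
  · exact h2

theorem fibre_finite (hX1 : St_X1) {R : ℝ} (hR : 0 < R) (u v : ℤ × ℤ) (hu : u ∈ DD)
    (hv : v ∈ DD) : {z | z ∈ NN R ∧ dir z = (u, v)}.Finite := by
  rw [fibre hX1 hR u v hu hv]
  split_ifs
  · exact (HH_finite hR u v).image _
  · exact Set.finite_empty

theorem NN_finite (hX1 : St_X1) {R : ℝ} (hR : 0 < R) : (NN R).Finite := by
  have h : NN R ⊆ ⋃ p ∈ (DD ×ˢ DD : Finset ((ℤ × ℤ) × (ℤ × ℤ))), {z | z ∈ NN R ∧ dir z = p} := by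
    intro z hz
    rw [Set.mem_iUnion₂]
    exact ⟨dir z, dir_mem hX1 hR hz, hz, rfl⟩
  refine Set.Finite.subset (Set.Finite.biUnion (DD ×ˢ DD).finite_toSet ?_) h
  rintro ⟨u, v⟩ hp
  rw [Finset.mem_coe, Finset.mem_product] at hp
  exact fibre_finite hX1 hR u v hp.1 hp.2

theorem card_NN (hX1 : St_X1) {R : ℝ} (hR : 0 < R) : (NN R).ncard =
    ∑ u ∈ DD, ∑ v ∈ DD, if dt u v ≠ 0 ∧ u + v ∈ DD then (HH u v R).ncard else 0 := by
  classical
  rw [Set.ncard_eq_toFinset_card _ (NN_finite hX1 hR),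
    Finset.card_eq_sum_card_fiberwise (f := dir) (t := DD ×ˢ DD), Finset.sum_product]
  · refine Finset.sum_congr rfl fun u hu => Finset.sum_congr rfl fun v hv => ?_
    have e : (((NN_finite hX1 hR).toFinset.filter fun z => dir z = (u, v)) :
        Set ((Fin 3 → ℤ) × (Fin 3 → ℤ))) = {z | z ∈ NN R ∧ dir z = (u, v)} := by
      ext z
      simp
    rw [← Set.ncard_coe_finset, e, fibre hX1 hR u v hu hv]
    split_ifs with h
    · exact Set.ncard_image_of_injective _ (inj_pair u v)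
    · exact Set.ncard_empty _
  · intro z hz
    rw [Finset.mem_coe, Set.Finite.mem_toFinset] at hz
    exact dir_mem hX1 hR hz

theorem wd_pos (u : ℤ × ℤ) : 0 < wd u := by
  unfold wd
  split_ifs <;> norm_num

end IX7

open IX7 in
theorem pr_X7 (hX1 : St_X1) (hX3 : St_X3) (hX4 : St_X4) (hX5 : St_X5) : St_X7 := by
  classical
  -- the parallel part
  set PR : ℝ → Set ((Fin 3 → ℤ) × (Fin 3 → ℤ)) := fun R =>
    {z | z ∈ Q2 (CC R) ∧ dt (z.1 0, z.1 1) (z.2 0, z.2 1) = 0} with hPR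
  have hQP : ∀ R : ℝ, Q2 (CC R) ⊆ P2 (CC R) := fun R z hz => ⟨hz.1, hz.2.1, hz.2.2.2⟩
  have hPRsub : ∀ R, PR R ⊆ {z | z ∈ P2 (CC R) ∧ dt (z.1 0, z.1 1) (z.2 0, z.2 1) = 0} :=
    fun R z hz => ⟨hQP R hz.1, hz.2⟩
  have hPRfin : ∀ R, 1 ≤ R → (PR R).Finite := fun R hR => (hX5 R hR).1.subset (hPRsub R)
  have hPRle : ∀ R, 1 ≤ R → ((PR R).ncard : ℝ) ≤ 2 * 10 ^ 6 * R := by
    intro R hR
    refine le_trans ?_ (hX5 R hR).2
    exact_mod_cast Set.ncard_le_ncard (hPRsub R) (hX5 R hR).1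
  have hlimP : Tendsto (fun R : ℝ => ((PR R).ncard : ℝ) / R ^ 2) atTop (𝓝 0) := by
    have h0 : Tendsto (fun R : ℝ => 2 * 10 ^ 6 / R) atTop (𝓝 0) :=
      tendsto_const_nhds.div_atTop tendsto_id
    refine tendsto_of_tendsto_of_tendsto_of_le_of_le' tendsto_const_nhds h0 ?_ ?_
    · filter_upwards [eventually_ge_atTop (1 : ℝ)] with R hR
      positivity
    · filter_upwards [eventually_ge_atTop (1 : ℝ)] with R hR
      have hR0 : (0 : ℝ) < R := by linarith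
      rw [div_le_div_iff₀ (by positivity) hR0]
      have := hPRle R hR
      nlinarith [mul_le_mul_of_nonneg_right this hR0.le]
  have hlimN : Tendsto (fun R : ℝ => ∑ u ∈ DD, ∑ v ∈ DD,
      (if dt u v ≠ 0 ∧ u + v ∈ DD then ((HH u v R).ncard : ℝ) / R ^ 2 else 0)) atTop
      (𝓝 (QQq : ℝ)) := by
    have e : (QQq : ℝ) = ∑ u ∈ DD, ∑ v ∈ DD, (if dt u v ≠ 0 ∧ u + v ∈ DD then
        (om u v : ℝ) * (hx (wd u) (wd v) (wd (u + v)) : ℝ) else 0) := by
      unfold QQq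
      push_cast
      refine Finset.sum_congr rfl fun u _ => Finset.sum_congr rfl fun v _ => ?_
      by_cases h1 : dt u v = 0
      · have h3 : ¬ (dt u v ≠ 0 ∧ u + v ∈ DD) := fun h => h.1 h1
        rw [if_neg h3]
        have : om u v = 0 := by
          unfold om
          rw [if_neg (by tauto)]
        rw [this]
        split_ifs <;> simp
      · by_cases h2 : u + v ∈ DD
        · rw [if_pos h2, if_pos ⟨h1, h2⟩]
          push_cast
          rfl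
        · rw [if_neg h2, if_neg (by tauto)]
          simp
    rw [e]
    refine tendsto_finsetSum _ fun u _ => tendsto_finsetSum _ fun v _ => ?_
    split_ifs with h
    · obtain ⟨hb, hvol⟩ := hX4 (wd u) (wd v) (wd (u + v)) (wd_pos u) (wd_pos v) (wd_pos (u + v))
      have := hX3 u v h.1 _ hb
      rw [hvol] at this
      exact this
    · exact tendsto_const_nhds
  have hlim := hlimP.add hlimN
  rw [zero_add] at hlim
  refine hlim.congr' ?_
  filter_upwards [eventually_ge_atTop (1 : ℝ)] with R hR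
  have hR0 : (0 : ℝ) < R := by linarith
  have hU : Q2 (CC R) = PR R ∪ NN R := by
    ext z
    constructor
    · intro hz
      by_cases h : dt (z.1 0, z.1 1) (z.2 0, z.2 1) = 0
      · exact Or.inl ⟨hz, h⟩
      · exact Or.inr ⟨hz, h⟩
    · rintro (hz | hz)
      · exact hz.1
      · exact hz.1
  have hD : Disjoint (PR R) (NN R) := by
    rw [Set.disjoint_left]
    rintro z ⟨-, h1⟩ ⟨-, h2⟩
    exact h2 h1
  rw [hU, Set.ncard_union_eq hD (hPRfin R hR) (NN_finite hX1 hR0), card_NN hX1 hR0]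
  push_cast
  rw [add_div, Finset.sum_div]
  congr 1
  refine Finset.sum_congr rfl fun u _ => ?_
  rw [Finset.sum_div]
  refine Finset.sum_congr rfl fun v _ => ?_
  split_ifs
  · rfl
  · simp

end Pool.Agent.Work.MP_b25393_ag.HX
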