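import Pool.Agent.Work.MP_b25393_ag.HX.Stmts

/-!
# MP_b25393_ag, block HX, item X9: the arrangements are nondegenerate, number of lines
-/

set_option autoImplicit false

open scoped LinearAlgebra.Projectivization Pointwise Matrix
open MeasureTheory Filter Topology Matrix

namespace Pool.Agent.Work.MP_b25393_ag.HX

open Pool.Agent.Work.MP_b25393_ag Pool.Agent.Work.MP_b25393_ag.HF

namespace IX9

lemma card_DD : DD.card ≤ 121 := by
  unfold DD
  refine (List.toFinset_card_le _).trans ((List.length_filter_le _ _).trans ?_)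
  decide

lemma mem10 : ((1, 0) : ℤ × ℤ) ∈ DD := by decide +kernel

lemma mem01 : ((0, 1) : ℤ × ℤ) ∈ DD := by decide +kernel

lemma mem11 : ((1, 1) : ℤ × ℤ) ∈ DD := by decide +kernel

/-- The six vectors are in the body. -/
lemma w_mem (hX1 : St_X1) {R : ℝ} (hR : 1 ≤ R) (k : Fin 6) : toR (HF.IA4.w k) ∈ CC R := by
  obtain ⟨-, -, hmem, -, hcol, -⟩ := hX1 R (by linarith)
  fin_cases k
  · refine (hmem _ ?_).2 ⟨?_, ?_⟩
    · decide
    · exact mem10
    · show |(((0 : ℤ)) : ℝ)| ≤ R * ((wd (1, 0) : ℤ) : ℝ)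
      have : wd (1, 0) = 32 := by decide
      rw [this]
      push_cast
      rw [abs_zero]
      linarith
  · refine (hmem _ ?_).2 ⟨?_, ?_⟩
    · decide
    · exact mem01
    · show |(((0 : ℤ)) : ℝ)| ≤ R * ((wd (0, 1) : ℤ) : ℝ)
      have : wd (0, 1) = 32 := by decide
      rw [this]
      push_cast
      rw [abs_zero]
      linarith
  · have h := hcol 1 (by push_cast; rw [abs_one]; linarith)
    exact h
  · refine (hmem _ ?_).2 ⟨?_, ?_⟩
    · decide
    · exact mem11
    · show |(((0 : ℤ)) : ℝ)| ≤ R * ((wd (1, 1) : ℤ) : ℝ)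
      have : wd (1, 1) = 31 := by decide
      rw [this]
      push_cast
      rw [abs_zero]
      linarith
  · refine (hmem _ ?_).2 ⟨?_, ?_⟩
    · decide
    · exact mem10
    · show |(((1 : ℤ)) : ℝ)| ≤ R * ((wd (1, 0) : ℤ) : ℝ)
      have : wd (1, 0) = 32 := by decide
      rw [this]
      push_cast
      rw [abs_one]
      linarith
  · refine (hmem _ ?_).2 ⟨?_, ?_⟩
    · decide
    · exact mem01
    · show |(((1 : ℤ)) : ℝ)| ≤ R * ((wd (0, 1) : ℤ) : ℝ)
      have : wd (0, 1) = 32 := by decide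
      rw [this]
      push_cast
      rw [abs_one]
      linarith

/-- The arrangement is nondegenerate. -/
lemma nondeg' (hX1 : St_X1) {R : ℝ} (hR : 1 ≤ R) (A : Finset (Str.PP ℚ))
    (hA : ∀ L, L ∈ A ↔ L ∈ lns (CC R)) : Str.nondeg A := by
  classical
  obtain ⟨ha, hb, hc, hd⟩ := all_A1
  have hne : ∀ k, toQ (HF.IA4.w k) ≠ 0 := fun k => hd _ (HF.IA4.w_prm k)
  let L : Fin 6 → Str.PP ℚ := fun k => Projectivization.mk ℚ (toQ (HF.IA4.w k)) (hne k)
  have hLA : ∀ k, L k ∈ A := fun k =>
    (hA _).2 ⟨HF.IA4.w k, HF.IA4.w_prm k, w_mem hX1 hR k, hne k, rfl⟩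
  have hLinj : Function.Injective L := by
    intro k k' h
    exact HF.IA4.w_inj k k'
      ((hb _ _ (HF.IA4.w_prm k) (HF.IA4.w_prm k') (hne k) (hne k')).1 h)
  refine ⟨?_, fun p => ?_⟩
  · have h1 : (Finset.univ.image L).card ≤ A.card := by
      refine Finset.card_le_card ?_
      intro x hx
      obtain ⟨k, -, rfl⟩ := Finset.mem_image.1 hx
      exact hLA k
    rw [Finset.card_image_of_injective _ hLinj, Finset.card_univ, Fintype.card_fin] at h1
    omega
  · obtain ⟨n, hn, hn0, rfl⟩ := ha p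
    have hnz : n ≠ 0 := by
      rintro rfl
      apply hn0
      funext i
      simp [toQ]
    obtain ⟨k, k', hkk, h1, h2⟩ := HF.IA4.two_off n hnz
    rw [← Str.card_off A (Projectivization.mk ℚ (toQ n) hn0)]
    refine Nat.add_le_add_left ?_ _
    have hsub : ({L k, L k'} : Finset (Str.PP ℚ)) ⊆
        Str.off A (Projectivization.mk ℚ (toQ n) hn0) := by
      intro x hx
      rw [Finset.mem_insert, Finset.mem_singleton] at hx
      rw [HF.IA4.mem_off]
      rcases hx with rfl | rfl
      · exact ⟨hLA k, fun h => h1 ((hc _ _ hn0 (hne k)).1 h)⟩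
      · exact ⟨hLA k', fun h => h2 ((hc _ _ hn0 (hne k')).1 h)⟩
    have h3 := Finset.card_le_card hsub
    rwa [Finset.card_pair (fun h => hkk (hLinj h))] at h3

/-- Lower bound for the number of primitive vectors. -/
lemma lower (hX1 : St_X1) {R : ℝ} (hR : 1 ≤ R) (N : ℕ) (hN : (N : ℝ) ≤ R) :
    2 * N ≤ (S1 (CC R)).ncard := by
  classical
  obtain ⟨-, -, hmem, -, -, hfin⟩ := hX1 R (by linarith)
  have hinj : Function.Injective (fun c : ℤ => vc (1, 0) c) := by
    intro c c' h
    exact congrFun h 2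
  have hsub : (((Finset.Icc (-(N : ℤ)) N).image (fun c : ℤ => vc (1, 0) c) :
      Finset (Fin 3 → ℤ)) : Set (Fin 3 → ℤ)) ⊆ S1 (CC R) := by
    intro v hv
    obtain ⟨c, hc, rfl⟩ := Finset.mem_image.1 (Finset.mem_coe.1 hv)
    rw [Finset.mem_Icc] at hc
    refine ⟨?_, ?_⟩
    · intro d hd
      exact isUnit_of_dvd_one (hd 0)
    · refine (hmem _ ?_).2 ⟨mem10, ?_⟩
      · show ((1, 0) : ℤ × ℤ) ≠ 0
        decide
      · show |(c : ℝ)| ≤ R * ((wd (1, 0) : ℤ) : ℝ)
        have h32 : wd (1, 0) = 32 := by decide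
        rw [h32]
        have h1 : |(c : ℝ)| ≤ N := by
          rw [abs_le]
          constructor
          · have := hc.1
            exact_mod_cast this
          · have := hc.2
            exact_mod_cast this
        push_cast
        linarith
  have h1 := Set.ncard_le_ncard hsub hfin
  rw [Set.ncard_coe_finset, Finset.card_image_of_injective _ hinj, Int.card_Icc] at h1
  omega

/-- Upper bound for the number of primitive vectors. -/
lemma upper (hX1 : St_X1) {R : ℝ} (hR : 1 ≤ R) :
    (((S1 (CC R)).ncard : ℕ) : ℝ) ≤ 122 * (69 * R) := by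
  classical
  obtain ⟨-, -, hmem, hbd, -, hfin⟩ := hX1 R (by linarith)
  set M : ℤ := ⌊34 * R⌋ with hM
  have hM0 : 0 ≤ M := Int.floor_nonneg.2 (by linarith)
  have hMR : (M : ℝ) ≤ 34 * R := Int.floor_le _
  have hsub : S1 (CC R) ⊆ (((insert 0 DD ×ˢ Finset.Icc (-M) M).image
      (fun z : (ℤ × ℤ) × ℤ => vc z.1 z.2) : Finset (Fin 3 → ℤ)) : Set (Fin 3 → ℤ)) := by
    intro v hv
    have h2 := hbd v hv.2
    rw [abs_le] at h2
    rw [Finset.mem_coe, Finset.mem_image]
    refine ⟨((v 0, v 1), v 2), ?_, ?_⟩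
    · rw [Finset.mem_product]
      refine ⟨?_, ?_⟩
      · by_cases h0 : (v 0, v 1) = 0
        · exact Finset.mem_insert.2 (Or.inl h0)
        · exact Finset.mem_insert.2 (Or.inr ((hmem v h0).1 hv.2).1)
      · rw [Finset.mem_Icc]
        constructor
        · have h3 : -(v 2) ≤ M := by
            rw [hM, Int.le_floor]
            push_cast
            linarith [h2.1]
          show -M ≤ v 2
          omega
        · show v 2 ≤ M
          rw [hM, Int.le_floor]
          exact h2.2
    · funext i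
      fin_cases i <;> rfl
  have h1 := Set.ncard_le_ncard hsub (Finset.finite_toSet _)
  rw [Set.ncard_coe_finset] at h1
  have h3 : ((insert 0 DD ×ˢ Finset.Icc (-M) M).image
      (fun z : (ℤ × ℤ) × ℤ => vc z.1 z.2)).card ≤ 122 * (M + 1 - -M).toNat := by
    refine Finset.card_image_le.trans ?_
    rw [Finset.card_product, Int.card_Icc]
    have h7 : (insert (0 : ℤ × ℤ) DD).card ≤ 122 := by
      have h8 : (insert (0 : ℤ × ℤ) DD).card ≤ DD.card + 1 := Finset.card_insert_le _ _
      have h9 := card_DD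
      generalize (insert (0 : ℤ × ℤ) DD).card = a at h8 ⊢
      generalize DD.card = b at h8 h9
      omega
    exact Nat.mul_le_mul_right _ h7
  have h4 : ((122 * (M + 1 - -M).toNat : ℕ) : ℝ) ≤ 122 * (69 * R) := by
    have h5 : (((M + 1 - -M).toNat : ℕ) : ℤ) = 2 * M + 1 := by
      rw [Int.toNat_of_nonneg (by omega)]
      ring
    have h6 : (((M + 1 - -M).toNat : ℕ) : ℝ) = 2 * M + 1 := by
      exact_mod_cast h5
    push_cast
    rw [h6]
    linarith
  refine le_trans ?_ h4
  exact_mod_cast h1.trans h3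

end IX9

theorem pr_X9 (hX1 : St_X1) : St_X9 := by
  intro R hR A hA
  obtain ⟨-, hsymm, -, -, -, hfin⟩ := hX1 R (by linarith)
  have h2 := (all_A2 (CC R) hsymm hfin A hA).1
  refine ⟨IX9.nondeg' hX1 hR A hA, ?_, ?_⟩
  · intro N hN
    have := IX9.lower hX1 hR N hN
    omega
  · have h3 := IX9.upper hX1 hR
    rw [← h2] at h3
    push_cast at h3
    linarith

end Pool.Agent.Work.MP_b25393_ag.HX
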