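import Pool.Agent.Work.MP_b25393_ag.HX.I_X1
import Pool.Agent.Work.MP_b25393_ag.HX.I_X2
import Pool.Agent.Work.MP_b25393_ag.HX.I_X3
import Pool.Agent.Work.MP_b25393_ag.HX.I_X4
import Pool.Agent.Work.MP_b25393_ag.HX.I_X5
import Pool.Agent.Work.MP_b25393_ag.HX.I_X6
import Pool.Agent.Work.MP_b25393_ag.HX.I_X7
import Pool.Agent.Work.MP_b25393_ag.HX.I_X8
import Pool.Agent.Work.MP_b25393_ag.HX.I_X9
import Pool.Agent.Work.MP_b25393_ag.HX.I_X10
import Pool.Agent.Work.MP_b25393_ag.HX.I_X11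

/-!
# MP_b25393_ag, block HX: all items together
-/

set_option autoImplicit false

namespace Pool.Agent.Work.MP_b25393_ag.HX

theorem all_X1 : St_X1 := pr_X1
theorem all_X2 : St_X2 := pr_X2
theorem all_X3 : St_X3 := pr_X3 all_X2
theorem all_X4 : St_X4 := pr_X4
theorem all_X5 : St_X5 := pr_X5 all_X1
theorem all_X6 : St_X6 := pr_X6 all_X1 all_X3 all_X4 all_X5
theorem all_X7 : St_X7 := pr_X7 all_X1 all_X3 all_X4 all_X5
theorem all_X8 : St_X8 := pr_X8
theorem all_X9 : St_X9 := pr_X9 all_X1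
theorem all_X10 : St_X10 := pr_X10
theorem all_X11 : St_X11 := pr_X11 all_X1 all_X6 all_X7 all_X8 all_X9 all_X10

end Pool.Agent.Work.MP_b25393_ag.HX
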