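import Pool.Agent.Work.MP_b25393_ag.HF.Main

/-!
# MP_b25393_ag, block HX: definitions

Captain helper80.  84 directions `u` (42 pencils) of the hexagonal lattice, of norm
`a² + a b + b² ≤ 21`, with integral windows `wd u`; the lines `a x + b y + c = 0` with
`|c| ≤ R * wd (a, b)`, `(a, b, c)` primitive.  As `R → ∞` the Chern slope tends to
`(6 p - 2 q)/(3 p - 2 q) = 2.45652...`, more than `27/11` and more than `49/20`.
-/

set_option autoImplicit false

open scoped LinearAlgebra.Projectivization Pointwise Matrix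
open MeasureTheory Filter Topology Matrix

namespace Pool.Agent.Work.MP_b25393_ag.HX

open Pool.Agent.Work.MP_b25393_ag Pool.Agent.Work.MP_b25393_ag.HF

/-- the norm of the hexagonal lattice -/
def nm (u : ℤ × ℤ) : ℤ := u.1 ^ 2 + u.1 * u.2 + u.2 ^ 2

/-- the 84 directions -/
def DD : Finset (ℤ × ℤ) :=
  (((List.range 11).flatMap (fun i => (List.range 11).map (fun j => ((i : ℤ) - 5, (j : ℤ) - 5)))).filter
    (fun u => 0 < nm u ∧ nm u ≤ 21)).toFinset

/-- the windows -/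
def wd (u : ℤ × ℤ) : ℤ :=
  if nm u = 1 then 32 else if nm u = 3 then 31 else if nm u = 4 then 30 else
  if nm u = 7 then 28 else if nm u = 9 then 26 else if nm u = 12 then 24 else
  if nm u = 13 then 23 else if nm u = 16 then 20 else if nm u = 19 then 16 else 13

/-- the factor of the slope of the supporting plane at `u` -/
def sl (u : ℤ × ℤ) : ℤ := if nm u = 21 then 5 else 1

/-- the convex symmetric body whose integral points are the 84 windows -/
def CC (R : ℝ) : Set (Fin 3 → ℝ) :=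
  {x | |x 0| ≤ 5 ∧ |x 1| ≤ 5 ∧ |x 0 + x 1| ≤ 5 ∧ ∀ u ∈ DD, |x 2| ≤ R * ((wd u : ℝ) +
    (sl u : ℝ) * (2 * (nm u : ℝ) - (2 * (u.1 : ℝ) * x 0 + (u.1 : ℝ) * x 1 + (u.2 : ℝ) * x 0 +
      2 * (u.2 : ℝ) * x 1)))}

/-- the integral vector `(u, c)` -/
def vc (u : ℤ × ℤ) (c : ℤ) : Fin 3 → ℤ := ![u.1, u.2, c]

/-- the density of the pairs `(c, c')` for which `(u, c) × (v, c')` is primitive, `dt u v ≠ 0` -/
def om (u v : ℤ × ℤ) : ℚ :=
  if dt u v ≠ 0 ∧ Nat.gcd (Int.gcd u.1 u.2) (Int.gcd v.1 v.2) = 1 then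
    (Nat.totient (dt u v).natAbs : ℚ) / ((dt u v).natAbs : ℚ) else 0

/-- the hexagon -/
def hexa (a b c : ℝ) : Set (Fin 2 → ℝ) := {x | |x 0| ≤ a ∧ |x 1| ≤ b ∧ |x 0 + x 1| ≤ c}

/-- the area of the hexagon, for integers -/
def hx (a b c : ℤ) : ℤ :=
  4 * a * b - max 0 (a + b - c) ^ 2 + max 0 (max 0 (a + b - c) - 2 * a) ^ 2 +
    max 0 (max 0 (a + b - c) - 2 * b) ^ 2

/-- the limit of the number of pairs -/
def PPq : ℚ := ∑ u ∈ DD, ∑ v ∈ DD, om u v * (4 * (wd u : ℚ) * (wd v : ℚ))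

/-- the limit of the number of triangles -/
def QQq : ℚ := ∑ u ∈ DD, ∑ v ∈ DD, if u + v ∈ DD then om u v * (hx (wd u) (wd v) (wd (u + v)) : ℚ)
  else 0

end Pool.Agent.Work.MP_b25393_ag.HX
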