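import Pool.Agent.Work.MP_b25393_ag.HX.Stmts

/-! Block HX, item X1: the integral points of the body. -/

set_option autoImplicit false

open scoped LinearAlgebra.Projectivization Pointwise Matrix
open MeasureTheory Filter Topology Matrix

namespace Pool.Agent.Work.MP_b25393_ag.HX

open Pool.Agent.Work.MP_b25393_ag Pool.Agent.Work.MP_b25393_ag.HF

namespace IX1

/-- the integral form of the right side -/
def bi (u w : ℤ × ℤ) : ℤ :=
  wd u + sl u * (2 * nm u - (2 * u.1 * w.1 + u.1 * w.2 + u.2 * w.1 + 2 * u.2 * w.2))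

lemma f1 : ∀ u ∈ DD, ∀ w ∈ DD, wd w ≤ bi u w := by decide +kernel

lemma f3 : ∀ u ∈ DD, -5 ≤ u.1 ∧ u.1 ≤ 5 ∧ -5 ≤ u.2 ∧ u.2 ≤ 5 ∧ -5 ≤ u.1 + u.2 ∧ u.1 + u.2 ≤ 5 := by
  decide +kernel

lemma f4 : ∀ u ∈ DD, 34 ≤ bi u (0, 0) := by decide +kernel

lemma f5 : ∀ u ∈ DD, -u ∈ DD := by decide +kernel

lemma f6 : ∀ u ∈ DD, wd u ≤ 32 := by decide +kernel

lemma f7 : ∀ u ∈ DD, bi u u = wd u := by decide +kernel

lemma f8 : ((1, 0) : ℤ × ℤ) ∈ DD ∧ bi (1, 0) (0, 0) = 34 := by decide +kernel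

lemma f2 : ∀ a ∈ Finset.Icc (-5 : ℤ) 5, ∀ b ∈ Finset.Icc (-5 : ℤ) 5, -5 ≤ a + b → a + b ≤ 5 →
    ((a, b) : ℤ × ℤ) ≠ (0, 0) → (a, b) ∉ DD → ∃ u ∈ DD, bi u (a, b) < 0 := by decide +kernel

lemma nm_neg (u : ℤ × ℤ) : nm (-u) = nm u := by
  unfold nm
  simp only [Prod.fst_neg, Prod.snd_neg]
  ring

lemma wd_neg (u : ℤ × ℤ) : wd (-u) = wd u := by
  unfold wd
  rw [nm_neg]

lemma sl_neg (u : ℤ × ℤ) : sl (-u) = sl u := by
  unfold sl
  rw [nm_neg]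

/-- the real form of the right side -/
noncomputable def br (u : ℤ × ℤ) (x : Fin 3 → ℝ) : ℝ :=
  (wd u : ℝ) + (sl u : ℝ) * (2 * (nm u : ℝ) - (2 * (u.1 : ℝ) * x 0 + (u.1 : ℝ) * x 1 +
    (u.2 : ℝ) * x 0 + 2 * (u.2 : ℝ) * x 1))

lemma mem_CC {R : ℝ} {x : Fin 3 → ℝ} :
    x ∈ CC R ↔ |x 0| ≤ 5 ∧ |x 1| ≤ 5 ∧ |x 0 + x 1| ≤ 5 ∧ ∀ u ∈ DD, |x 2| ≤ R * br u x := Iff.rfl

lemma br_toR (u : ℤ × ℤ) (v : Fin 3 → ℤ) : br u (toR v) = (bi u (v 0, v 1) : ℝ) := by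
  unfold br bi toR
  push_cast
  ring

lemma br_comb (u : ℤ × ℤ) (x y : Fin 3 → ℝ) (a b : ℝ) (hab : a + b = 1) :
    br u (a • x + b • y) = a * br u x + b * br u y := by
  unfold br
  simp only [Pi.add_apply, Pi.smul_apply, smul_eq_mul]
  linear_combination ((wd u : ℝ) + (sl u : ℝ) * (2 * (nm u : ℝ))) * (-hab)

lemma abs_comb {x y a b c d : ℝ} (ha : 0 ≤ a) (hb : 0 ≤ b) (hx : |x| ≤ c) (hy : |y| ≤ d) :
    |a * x + b * y| ≤ a * c + b * d := by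
  refine (abs_add_le _ _).trans ?_
  rw [abs_mul, abs_mul, abs_of_nonneg ha, abs_of_nonneg hb]
  exact add_le_add (mul_le_mul_of_nonneg_left hx ha) (mul_le_mul_of_nonneg_left hy hb)

lemma conv (R : ℝ) : Convex ℝ (CC R) := by
  intro x hx y hy a b ha hb hab
  rw [mem_CC] at hx hy ⊢
  obtain ⟨hx0, hx1, hx2, hx3⟩ := hx
  obtain ⟨hy0, hy1, hy2, hy3⟩ := hy
  have e5 : a * 5 + b * 5 = 5 := by linear_combination 5 * hab
  refine ⟨?_, ?_, ?_, ?_⟩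
  · have := abs_comb ha hb hx0 hy0
    rw [e5] at this
    exact this
  · have := abs_comb ha hb hx1 hy1
    rw [e5] at this
    exact this
  · have := abs_comb ha hb hx2 hy2
    rw [e5] at this
    have e : (a • x + b • y) 0 + (a • x + b • y) 1 = a * (x 0 + x 1) + b * (y 0 + y 1) := by
      simp only [Pi.add_apply, Pi.smul_apply, smul_eq_mul]
      ring
    rw [e]
    exact this
  · intro u hu
    have := abs_comb ha hb (hx3 u hu) (hy3 u hu)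
    rw [br_comb u x y a b hab]
    have e : R * (a * br u x + b * br u y) = a * (R * br u x) + b * (R * br u y) := by ring
    rw [e]
    exact this

lemma br_neg (u : ℤ × ℤ) (x : Fin 3 → ℝ) : br u (-x) = br (-u) x := by
  unfold br
  rw [wd_neg, sl_neg, nm_neg]
  simp only [Pi.neg_apply, Prod.fst_neg, Prod.snd_neg]
  push_cast
  ring

lemma symm (R : ℝ) : ∀ x ∈ CC R, -x ∈ CC R := by
  intro x hx
  rw [mem_CC] at hx ⊢
  obtain ⟨hx0, hx1, hx2, hx3⟩ := hx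
  refine ⟨?_, ?_, ?_, ?_⟩
  · rw [Pi.neg_apply, abs_neg]
    exact hx0
  · rw [Pi.neg_apply, abs_neg]
    exact hx1
  · rw [Pi.neg_apply, Pi.neg_apply, ← neg_add, abs_neg]
    exact hx2
  · intro u hu
    rw [Pi.neg_apply, abs_neg, br_neg]
    exact hx3 (-u) (f5 u hu)

lemma box {R : ℝ} {v : Fin 3 → ℤ} (h : toR v ∈ CC R) : -5 ≤ v 0 ∧ v 0 ≤ 5 ∧ -5 ≤ v 1 ∧ v 1 ≤ 5 ∧
    -5 ≤ v 0 + v 1 ∧ v 0 + v 1 ≤ 5 := by
  rw [mem_CC] at h
  obtain ⟨h0, h1, h2, _⟩ := h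
  unfold toR at h0 h1 h2
  rw [abs_le] at h0 h1 h2
  obtain ⟨a1, a2⟩ := h0
  obtain ⟨a3, a4⟩ := h1
  obtain ⟨a5, a6⟩ := h2
  refine ⟨?_, ?_, ?_, ?_, ?_, ?_⟩
  · exact_mod_cast a1
  · exact_mod_cast a2
  · exact_mod_cast a3
  · exact_mod_cast a4
  · exact_mod_cast a5
  · exact_mod_cast a6

lemma main2 {R : ℝ} (hR : 0 < R) (v : Fin 3 → ℤ) (hv : (v 0, v 1) ≠ (0 : ℤ × ℤ)) :
    toR v ∈ CC R ↔ (v 0, v 1) ∈ DD ∧ |(v 2 : ℝ)| ≤ R * (wd (v 0, v 1) : ℝ) := by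
  constructor
  · intro h
    obtain ⟨b1, b2, b3, b4, b5, b6⟩ := box h
    rw [mem_CC] at h
    obtain ⟨_, _, _, h3⟩ := h
    have hD : (v 0, v 1) ∈ DD := by
      by_contra hn
      obtain ⟨u, hu, hlt⟩ := f2 (v 0) (Finset.mem_Icc.mpr ⟨b1, b2⟩) (v 1)
        (Finset.mem_Icc.mpr ⟨b3, b4⟩) b5 b6 hv hn
      have := h3 u hu
      rw [br_toR] at this
      have h4 : (bi u (v 0, v 1) : ℝ) < 0 := by exact_mod_cast hlt
      have h5 : R * (bi u (v 0, v 1) : ℝ) < 0 := mul_neg_of_pos_of_neg hR h4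
      have h6 : 0 ≤ |toR v 2| := abs_nonneg _
      linarith
    refine ⟨hD, ?_⟩
    have := h3 _ hD
    rw [br_toR, f7 _ hD] at this
    exact this
  · rintro ⟨hD, h2⟩
    obtain ⟨b1, b2, b3, b4, b5, b6⟩ := f3 _ hD
    simp only at b1 b2 b3 b4 b5 b6
    rw [mem_CC]
    refine ⟨?_, ?_, ?_, ?_⟩
    · unfold toR
      rw [abs_le]
      exact ⟨by exact_mod_cast b1, by exact_mod_cast b2⟩
    · unfold toR
      rw [abs_le]
      exact ⟨by exact_mod_cast b3, by exact_mod_cast b4⟩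
    · unfold toR
      rw [abs_le]
      exact ⟨by exact_mod_cast b5, by exact_mod_cast b6⟩
    · intro u hu
      rw [br_toR]
      have h3 : (wd (v 0, v 1) : ℝ) ≤ (bi u (v 0, v 1) : ℝ) := by exact_mod_cast f1 u hu _ hD
      exact h2.trans (mul_le_mul_of_nonneg_left h3 hR.le)

lemma main3 {R : ℝ} (hR : 0 < R) (v : Fin 3 → ℤ) (h : toR v ∈ CC R) :
    |(v 2 : ℝ)| ≤ 34 * R := by
  by_cases hv : (v 0, v 1) = (0 : ℤ × ℤ)
  · rw [mem_CC] at h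
    obtain ⟨_, _, _, h3⟩ := h
    have := h3 _ f8.1
    rw [br_toR, hv] at this
    have e : bi (1, 0) (0 : ℤ × ℤ) = 34 := f8.2
    rw [e] at this
    rw [mul_comm]
    have h4 : ((34 : ℤ) : ℝ) = 34 := by norm_num
    rw [h4] at this
    exact this
  · obtain ⟨hD, h2⟩ := (main2 hR v hv).mp h
    have h3 : (wd (v 0, v 1) : ℝ) ≤ 34 := by
      have := f6 _ hD
      have h4 : wd (v 0, v 1) ≤ 34 := by omega
      exact_mod_cast h4
    calc |(v 2 : ℝ)| ≤ R * (wd (v 0, v 1) : ℝ) := h2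
      _ ≤ R * 34 := mul_le_mul_of_nonneg_left h3 hR.le
      _ = 34 * R := mul_comm _ _

lemma main4 {R : ℝ} (hR : 0 < R) (c : ℤ) (h : |(c : ℝ)| ≤ 34 * R) : toR (vc 0 c) ∈ CC R := by
  rw [mem_CC]
  have e0 : (vc 0 c) 0 = 0 := rfl
  have e1 : (vc 0 c) 1 = 0 := rfl
  have e2 : (vc 0 c) 2 = c := rfl
  refine ⟨?_, ?_, ?_, ?_⟩
  · unfold toR
    rw [e0]
    norm_num
  · unfold toR
    rw [e1]
    norm_num
  · unfold toR
    rw [e0, e1]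
    norm_num
  · intro u hu
    rw [br_toR, e0, e1]
    have h3 : (34 : ℝ) ≤ (bi u (0, 0) : ℝ) := by exact_mod_cast f4 u hu
    have h4 : toR (vc 0 c) 2 = (c : ℝ) := by
      unfold toR
      rw [e2]
    rw [h4]
    calc |(c : ℝ)| ≤ 34 * R := h
      _ = R * 34 := mul_comm _ _
      _ ≤ R * (bi u (0, 0) : ℝ) := mul_le_mul_of_nonneg_left h3 hR.le

lemma fin {R : ℝ} (hR : 0 < R) : (S1 (CC R)).Finite := by
  obtain ⟨N, hN⟩ := exists_nat_ge (34 * R + 5)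
  refine (Set.finite_Icc (fun _ : Fin 3 => -(N : ℤ)) (fun _ : Fin 3 => (N : ℤ))).subset ?_
  rintro v ⟨_, hv⟩
  obtain ⟨b1, b2, b3, b4, _, _⟩ := box hv
  have h2 := main3 hR v hv
  have hN5 : (5 : ℤ) ≤ N := by
    have : (5 : ℝ) ≤ N := by linarith
    exact_mod_cast this
  have h3 : |(v 2 : ℝ)| ≤ (N : ℝ) := by linarith
  rw [abs_le] at h3
  have h4 : -(N : ℤ) ≤ v 2 := by exact_mod_cast h3.1
  have h5 : v 2 ≤ (N : ℤ) := by exact_mod_cast h3.2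
  rw [Set.mem_Icc, Pi.le_def, Pi.le_def]
  constructor
  · intro i
    fin_cases i
    · show -(N : ℤ) ≤ v 0
      omega
    · show -(N : ℤ) ≤ v 1
      omega
    · show -(N : ℤ) ≤ v 2
      exact h4
  · intro i
    fin_cases i
    · show v 0 ≤ (N : ℤ)
      omega
    · show v 1 ≤ (N : ℤ)
      omega
    · show v 2 ≤ (N : ℤ)
      exact h5

end IX1

theorem pr_X1 : St_X1 := fun R hR =>
  ⟨IX1.conv R, IX1.symm R, fun v hv => IX1.main2 hR v hv, fun v h => IX1.main3 hR v h,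
    fun c h => IX1.main4 hR c h, IX1.fin hR⟩

end Pool.Agent.Work.MP_b25393_ag.HX
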