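import Pool.Agent.Work.MP_b25393_ag.HX.Stmts

/-!
# MP_b25393_ag, block HX, item X11: the result
-/

set_option autoImplicit false

open scoped LinearAlgebra.Projectivization Pointwise Matrix
open MeasureTheory Filter Topology Matrix

namespace Pool.Agent.Work.MP_b25393_ag.HX

open Pool.Agent.Work.MP_b25393_ag Pool.Agent.Work.MP_b25393_ag.HF

namespace IX11

/-- finitely many primitive vectors give finitely many lines -/
theorem lns_finite {C : Set (Fin 3 → ℝ)} (h : (S1 C).Finite) : (lns C).Finite := by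
  have h1 : lns C ⊆ ⋃ v ∈ S1 C, {L | ∃ h : toQ v ≠ 0, L = Projectivization.mk ℚ (toQ v) h} := by
    rintro L ⟨v, hv, hC, h0, hL⟩
    simp only [Set.mem_iUnion]
    exact ⟨v, ⟨hv, hC⟩, h0, hL⟩
  refine (Set.Finite.biUnion h fun v _ => ?_).subset h1
  apply Set.Subsingleton.finite
  rintro L ⟨h2, h3⟩ L' ⟨h4, h5⟩
  rw [h3, h5]

end IX11

open IX11 in
theorem pr_X11 (hX1 : St_X1) (hX6 : St_X6) (hX7 : St_X7) (hX8 : St_X8) (hX9 : St_X9)
    (hX10 : St_X10) : St_X11 := by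
  classical
  intro N
  have hfin : ∀ R : ℝ, 0 < R → (lns (CC R)).Finite := fun R hR =>
    lns_finite (hX1 R hR).2.2.2.2.2
  set A : ℝ → Finset (Str.PP ℚ) := fun R => if h : 0 < R then (hfin R h).toFinset else ∅ with hA
  have hmem : ∀ R : ℝ, 0 < R → ∀ L, L ∈ A R ↔ L ∈ lns (CC R) := by
    intro R hR L
    simp only [hA]
    rw [dif_pos hR, Set.Finite.mem_toFinset]
  obtain ⟨h1, h2⟩ := hX10
  have h1' : 2 * (QQq : ℝ) < 3 * (PPq : ℝ) := by exact_mod_cast h1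
  have h2' : (4913 / 2000 : ℝ) * (3 * (PPq : ℝ) - 2 * (QQq : ℝ)) < 6 * (PPq : ℝ) - 2 * (QQq : ℝ) := by
    have h9 : ((4913 / 2000 * (3 * PPq - 2 * QQq) : ℚ) : ℝ) < ((6 * PPq - 2 * QQq : ℚ) : ℝ) :=
      Rat.cast_lt.mpr h2
    push_cast at h9
    exact h9
  have hden : (0 : ℝ) < 3 * (PPq : ℝ) - 2 * (QQq : ℝ) := by linarith
  have hlt : (4913 / 2000 : ℝ) < (6 * (PPq : ℝ) - 2 * (QQq : ℝ)) / (3 * (PPq : ℝ) - 2 * (QQq : ℝ)) := by
    rw [lt_div_iff₀ hden]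
    exact h2'
  have hcard : Tendsto (fun R => ((A R).card : ℝ) / R ^ 2) atTop (𝓝 0) := by
    have h3 : Tendsto (fun R : ℝ => (10 ^ 4 : ℝ) * R⁻¹) atTop (𝓝 0) := by
      have := (tendsto_inv_atTop_zero (𝕜 := ℝ)).const_mul (10 ^ 4 : ℝ)
      rwa [mul_zero] at this
    refine squeeze_zero' ?_ ?_ h3
    · filter_upwards with R
      positivity
    · filter_upwards [eventually_ge_atTop (1 : ℝ)] with R hR
      have hR0 : 0 < R := by linarith
      have h4 := (hX9 R hR (A R) (hmem R hR0)).2.2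
      rw [div_le_iff₀ (by positivity)]
      have h5 : (10 ^ 4 : ℝ) * R⁻¹ * R ^ 2 = 10 ^ 4 * R := by
        field_simp
      rw [h5]
      exact h4
  have hlim := hX8 A (fun R => (P2 (CC R)).ncard) (fun R => (Q2 (CC R)).ncard) (PPq : ℝ) (QQq : ℝ)
    h1' (fun R hR => all_A3 _ (hX1 R hR).1 (hX1 R hR).2.1 (hX1 R hR).2.2.2.2.2 (A R) (hmem R hR))
    hX6 hX7 hcard
  have hev := hlim.eventually (lt_mem_nhds hlt)
  obtain ⟨R, hR, hR1, hRN⟩ := (hev.and ((eventually_ge_atTop (1 : ℝ)).and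
    (eventually_ge_atTop (N : ℝ)))).exists
  have hR0 : 0 < R := by linarith
  obtain ⟨h6, h7, _⟩ := hX9 R hR1 (A R) (hmem R hR0)
  exact ⟨A R, h6, h7 N hRN, hR⟩

end Pool.Agent.Work.MP_b25393_ag.HX
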