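import Pool.Agent.Work.MP_b25393_ag.HX.Defs

/-!
# MP_b25393_ag, block HX: statements

Every docstring is the complete proof.  The library HF (`HF/Main.lean`: `all_A1 .. all_Q9`) is
imported and may be used freely.
-/

set_option autoImplicit false

open scoped LinearAlgebra.Projectivization Pointwise Matrix
open MeasureTheory Filter Topology Matrix

namespace Pool.Agent.Work.MP_b25393_ag.HX

open Pool.Agent.Work.MP_b25393_ag Pool.Agent.Work.MP_b25393_ag.HF

/-- X1 (EASY-MEDIUM), the integral points of the body.  (1) `CC R` is an intersection of sets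
`{x | |l x| ≤ c}` and `{x | |x 2| ≤ R (α - l x)}`, all convex; symmetric because `DD` is symmetric and
`wd`, `sl`, `nm` are even (the condition for `-u` at `-x` is that for `u` at `x`).
(2) Let `u₀ = (v 0, v 1)`.  Into `DD`: `u₀` is one of the 91 integral points with `|a| ≤ 5`, `|b| ≤ 5`,
`|a + b| ≤ 5`; besides `0` and the points of `DD` there are only `±(5, 0)`, `±(0, 5)`, `±(5, -5)`, and
for each of these there is `u ∈ DD` (of norm 21) with `wd u + sl u (2 nm u - B(u, u₀)) = 13 - 15 < 0`,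
impossible for `R > 0` (`B((a,b),(x,y)) = 2 a x + a y + b x + 2 b y`).  For `u₀ ∈ DD` the condition for
`u = u₀` says `|v 2| ≤ R wd u₀` (`B(u, u) = 2 nm u`).  Conversely for `u, u' ∈ DD` the integer
inequality `wd u' ≤ wd u + sl u (2 nm u - B(u, u'))` holds: 84 * 84 cases, `decide +kernel` (write the
statement with `∀ u ∈ DD, ∀ u' ∈ DD`, or over lists), and multiply by `R ≥ 0`.
(3) If `u₀ = 0` the condition for `u = (1, 0)` says `|v 2| ≤ R (32 + 2)`.  (4) all the numbers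
`wd u + sl u * 2 nm u` are at least `34`. -/
def St_X1 : Prop := ∀ R : ℝ, 0 < R →
  Convex ℝ (CC R) ∧ (∀ x ∈ CC R, -x ∈ CC R) ∧
  (∀ v : Fin 3 → ℤ, (v 0, v 1) ≠ 0 →
    (toR v ∈ CC R ↔ (v 0, v 1) ∈ DD ∧ |(v 2 : ℝ)| ≤ R * (wd (v 0, v 1) : ℝ))) ∧
  (∀ v : Fin 3 → ℤ, toR v ∈ CC R → |(v 2 : ℝ)| ≤ 34 * R) ∧
  (∀ c : ℤ, |(c : ℝ)| ≤ 34 * R → toR (vc 0 c) ∈ CC R) ∧
  (S1 (CC R)).Finite

/-- X2 (MEDIUM), the density.  `m = |δ|`, `δ = dt u v`.  If `g = gcd(u, v) ≠ 1` then `g` divides all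
coordinates of `vc u c ⨯₃ vc v c' = (u₂ c' - c v₂, c v₁ - u₁ c', δ)`, so the set is empty.  Let
`gcd(u, v) = 1`.  There are coprime `s, t` with `u' = s u + t v` primitive (gcd of the coordinates 1):
for instance by the Smith normal form, or directly: let `e₁ = gcd(u₁, u₂)`, `e₂ = gcd(v₁, v₂)`, coprime;
`s = 1` and `t` = the product of the primes which divide `δ` but not `e₁`... or choose `t` by the
Chinese remainder theorem such that for every prime `p ∣ δ` the vector `u + t v` is nonzero mod `p`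
(`t ≡ 0` if `p ∤ u`, `t ≡ 1` if `p ∣ u`, then `p ∤ v`); a common prime divisor of `u' = u + t v`
divides `δ = dt u' v`, so `u'` is primitive.  So take `s = 1`, `u' = u + t v`, and `c'' = c + t c'`: the
map `(c, c') ↦ (c + t c', c')` is a bijection mod `m` and
`vc u c ⨯₃ vc v c' = vc u' (c + t c') ⨯₃ vc v c'`, `dt u' v = δ`.  So we may assume that `u` is
primitive: `dt u w = 1` for some `w` (Bezout), and `v = k u + δ w`, `k = dt v w`; put `f = c' - k c`;
`vc u c ⨯₃ vc v c' = vc u c ⨯₃ vc (δ w) f = (u₂ f - c δ w₂, c δ w₁ - u₁ f, δ)`.  A prime `p ∣ δ` divides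
all coordinates iff it divides `u₂ f` and `u₁ f`, iff `p ∣ f`; so the vector is primitive iff
`gcd(f, m) = 1`.  For each of the `m` residues `c` there are `φ(m)` residues `c'`. -/
def St_X2 : Prop := ∀ u v : ℤ × ℤ, dt u v ≠ 0 →
  (({z : Fin 2 → ℤ | (∀ i, 0 ≤ z i ∧ z i < |dt u v|) ∧ Prm (vc u (z 0) ⨯₃ vc v (z 1))}.ncard : ℕ) : ℝ) =
    (om u v : ℝ) * ((dt u v : ℤ) : ℝ) ^ 2

/-- X3 (EASY-MEDIUM), the count for one pair of directions.  Whether `vc u c ⨯₃ vc v c'` is primitive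
depends only on `c, c'` modulo `m = |dt u v|` (the third coordinate is `dt u v`; a common divisor
divides `m`).  So the set is the disjoint union, over the finitely many residues `r` in X2, of
`{z | toR z ∈ R • T, m ∣ z i - r i}`; sum of the limits `vol T / m²` (`HF.all_C3` with `ι = Fin 2`);
the number of residues is `om u v * m²` (X2).  Same proof as `HF.I_C5`.  USES X2. -/
def St_X3 : Prop := ∀ u v : ℤ × ℤ, dt u v ≠ 0 → ∀ T : Set (Fin 2 → ℝ), Body T →
  Tendsto (fun R : ℝ => (({z : Fin 2 → ℤ | toR z ∈ R • T ∧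
    Prm (vc u (z 0) ⨯₃ vc v (z 1))}.ncard : ℕ) : ℝ) / R ^ 2) atTop
    (𝓝 ((om u v : ℝ) * (volume T).toReal))

/-- X4 (MEDIUM), the area of the hexagon.  `Body`: bounded, closed, convex, symmetric, contains a
neighbourhood of `0`.  Area (Fubini; `MeasureTheory.volume_preserving_finTwoArrow` to `ℝ × ℝ`): for
`|x| ≤ a` the section is `[-b, b] ∩ [-c - x, c - x]`.  One way: the box has area `4 a b`; the part of
the box with `x + y > c` and the part with `x + y < -c` are disjoint (`c > 0`) and congruent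
(`z ↦ -z`); the part with `x + y > c` becomes, with `ξ = a - x`, `η = b - y` and `s = a + b - c`, the
set `{0 ≤ ξ ≤ 2 a, 0 ≤ η ≤ 2 b, ξ + η < s}`: empty if `s ≤ 0`; otherwise the triangle
`{ξ, η ≥ 0, ξ + η < s}` of area `s²/2` minus the two triangles `ξ > 2 a` (area `(s - 2 a)²/2` or 0)
and `η > 2 b`, disjoint because `s ≤ 2 a + 2 b`.  Another way: the area is
`∫_(-a)^(a) (min b (c - x) - max (-b) (-c - x))⁺ dx`, an explicit integral of a piecewise linear
function. -/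
def St_X4 : Prop := ∀ a b c : ℤ, 0 < a → 0 < b → 0 < c →
  Body (hexa a b c) ∧ (volume (hexa a b c)).toReal = (hx a b c : ℝ)

/-- X5 (MEDIUM), pairs of parallel directions.  Let `(v, v') ∈ P2 (CC R)` with
`dt (v 0, v 1) (v' 0, v' 1) = 0`, `R ≥ 1`.  The cross product is
`(v 1 v' 2 - v 2 v' 1, v 2 v' 0 - v 0 v' 2, 0)`.  By X1 `(v 0, v 1)` and `(v' 0, v' 1)` lie in
`DD ∪ {0}` (at most 85² pairs), and `|v 2|, |v' 2| ≤ 34 R`, so each takes at most `69 R` values.  For
given directions `u, u'` and given `v 2 = c`, if `u ≠ 0`: `c' = v' 2` takes at most two values, because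
`(u₂ c' - c u'₂, c u'₁ - u₁ c')` is a primitive vector proportional to the fixed nonzero vector
`(u₂, -u₁)` (as `u₁ u'₂ = u₂ u'₁`: `u₁ (u₂ c' - c u'₂) + u₂ (c u'₁ - u₁ c') = 0`), and `c'` is
determined by this vector; there are at most two primitive vectors on a line.  If `u = 0` then
`u' ≠ 0` (otherwise the cross product is 0) and the same with the roles exchanged.  So the number of
pairs is at most `2 * 85² * 2 * 69 R ≤ 2 * 10⁶ R`.  USES X1. -/
def St_X5 : Prop := ∀ R : ℝ, 1 ≤ R →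
  {z | z ∈ P2 (CC R) ∧ dt (z.1 0, z.1 1) (z.2 0, z.2 1) = 0}.Finite ∧
  (({z | z ∈ P2 (CC R) ∧ dt (z.1 0, z.1 1) (z.2 0, z.2 1) = 0}.ncard : ℕ) : ℝ) ≤ 2 * 10 ^ 6 * R

/-- X6 (MEDIUM), the number of pairs.  `P2 (CC R)` is the disjoint union of the set of X5 (`O(R)`
elements) and, over the `(u, u') ∈ DD × DD` with `dt u u' ≠ 0`, of the sets of `(vc u c, vc u' c')`
with `|c| ≤ R wd u`, `|c'| ≤ R wd u'` and primitive cross product (X1), which correspond to
`{z : Fin 2 → ℤ | toR z ∈ R • hexa (wd u) (wd u') (wd u + wd u'), Prm ..}`; X3, X4 and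
`hx a b (a + b) = 4 a b` (`a, b > 0`).  For `dt u u' = 0` the summand of `PPq` is `0`.
USES X1 X3 X4 X5. -/
def St_X6 : Prop :=
  Tendsto (fun R : ℝ => (((P2 (CC R)).ncard : ℕ) : ℝ) / R ^ 2) atTop (𝓝 (PPq : ℝ))

/-- X7 (MEDIUM), the number of triangles.  The same as X6 for
`Q2 (CC R) = {z ∈ P2 (CC R) | toR (z.1 + z.2) ∈ CC R}`: for `u, u' ∈ DD` with `dt u u' ≠ 0` one has
`u + u' ≠ 0`, and `(u + u', c + c')` lies in `CC R` iff `u + u' ∈ DD` and
`|c + c'| ≤ R wd (u + u')` (X1): the hexagon `hexa (wd u) (wd u') (wd (u + u'))`.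
USES X1 X3 X4 X5. -/
def St_X7 : Prop :=
  Tendsto (fun R : ℝ => (((Q2 (CC R)).ncard : ℕ) : ℝ) / R ^ 2) atTop (𝓝 (QQq : ℝ))

/-- X8 (EASY), algebra of the slope.  Copy of `HF.I_A5` with `R ^ 2` in place of `R ^ 6` and `q` in
place of `p * q`; the hypotheses on `f0`, `f1` only for `R > 0`. -/
def St_X8 : Prop := ∀ (A : ℝ → Finset (Str.PP ℚ)) (P Q : ℝ → ℕ) (p q : ℝ), 2 * q < 3 * p →
  (∀ R, 0 < R → 16 * Str.f1 (A R) = P R + 24 * Str.f0 (A R) ∧
    12 * Str.f1 (A R) = Q R + 24 * Str.f0 (A R)) →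
  Tendsto (fun R => (P R : ℝ) / R ^ 2) atTop (𝓝 p) →
  Tendsto (fun R => (Q R : ℝ) / R ^ 2) atTop (𝓝 q) →
  Tendsto (fun R => ((A R).card : ℝ) / R ^ 2) atTop (𝓝 0) →
  Tendsto (fun R => Str.slope (A R)) atTop (𝓝 ((6 * p - 2 * q) / (3 * p - 2 * q)))

/-- X9 (EASY), the arrangements.  Nondegenerate: copy of `HF.I_A4`; the six vectors `e₁, e₂, e₃,
e₁ + e₂, e₁ + e₃, e₂ + e₃` are in `CC R` for `R ≥ 1` (X1: the directions are `0`, `(1,0)`, `(0,1)`,
`(1,1)` with windows at least 31).  Number of lines: `2 A.card = (S1 (CC R)).ncard` (`HF.all_A2`); the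
vectors `(1, 0, c)`, `|c| ≤ N`, are in `S1 (CC R)` if `N ≤ R`, so `2 A.card ≥ 2 N`.  Upper bound: `S1`
has at most `85 * (69 R)` elements for `R ≥ 1` (X1).  USES X1. -/
def St_X9 : Prop := ∀ R : ℝ, 1 ≤ R → ∀ A : Finset (Str.PP ℚ), (∀ L, L ∈ A ↔ L ∈ lns (CC R)) →
  Str.nondeg A ∧ (∀ N : ℕ, (N : ℝ) ≤ R → N ≤ A.card) ∧ (A.card : ℝ) ≤ 10 ^ 4 * R

/-- X10 (EASY-MEDIUM), the numbers.  A finite computation with 84 * 84 pairs (all values of `|dt|` are
at most 20; `lcm(1..20) = 232792560` clears all denominators, so one can evaluate integer sums over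
explicit lists with `decide +kernel`).  `QQq / PPq = 0.4701516...`, the quotient
`(6 PPq - 2 QQq)/(3 PPq - 2 QQq)` is `2.456525...`. -/
def St_X10 : Prop := 2 * QQq < 3 * PPq ∧ 4913 / 2000 * (3 * PPq - 2 * QQq) < 6 * PPq - 2 * QQq

/-- X11 (EASY-MEDIUM), the result.  For `R > 0` let `A R` be the finset of the lines with a primitive
coefficient vector in `CC R` (`lns (CC R)` is finite because `S1 (CC R)` is, X1).  `HF.all_A3` gives the
relations between `f0`, `f1` and the numbers of pairs and triangles; X6, X7, X8, X9 give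
`Str.slope (A R) → (6 PPq - 2 QQq)/(3 PPq - 2 QQq) > 4913/2000` (X10); X9 for large `R`.
USES X1 X6 X7 X8 X9 X10. -/
def St_X11 : Prop := ∀ N : ℕ, ∃ A : Finset (Str.PP ℚ), Str.nondeg A ∧ N ≤ A.card ∧
  4913 / 2000 < Str.slope A

end Pool.Agent.Work.MP_b25393_ag.HX
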